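import Pool.Statements.S01012
import Pool.Agent.T6.H24.Pyth

set_option autoImplicit false
open Pool Pool.MP_293fae_al

namespace Pool.Agent.S01012

open Polynomial Ideal

/-- The reduction map `ℤ[i] → 𝔽₂`. -/
noncomputable def red : GaussianInt →+* ZMod 2 := Zsqrtd.lift ⟨1, by decide⟩

theorem red_apply (z : GaussianInt) : red z = (z.re : ZMod 2) + (z.im : ZMod 2) := by
  change ((z.re : ZMod 2) + (z.im : ZMod 2) * 1) = _
  rw [mul_one]

theorem ker_red : RingHom.ker red = span {(⟨1, 1⟩ : GaussianInt)} := by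
  apply le_antisymm
  · intro z hz
    rw [RingHom.mem_ker, red_apply] at hz
    have h1 : ((z.re + z.im : ℤ) : ZMod 2) = 0 := by push_cast; exact hz
    rw [ZMod.intCast_zmod_eq_zero_iff_dvd] at h1
    obtain ⟨k, hk⟩ := h1
    push_cast at hk
    rw [mem_span_singleton]
    refine ⟨⟨k, z.im - k⟩, ?_⟩
    ext
    · simp; linarith
    · simp
  · rw [span_singleton_le_iff_mem, RingHom.mem_ker, red_apply]
    decide

theorem prime_one_add_i : Prime (⟨1, 1⟩ : GaussianInt) := by
  have h0 : (⟨1, 1⟩ : GaussianInt) ≠ 0 := by decide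
  rw [← span_singleton_prime h0, ← ker_red]
  exact RingHom.ker_isPrime red

/-- The map `ℤ[i][X] → 𝔽₂` sending `X` to zero. -/
noncomputable def phi : GaussianInt[X] →+* ZMod 2 := eval₂RingHom red 0

theorem ker_phi : RingHom.ker phi = span {C (⟨1, 1⟩ : GaussianInt), X} := by
  apply le_antisymm
  · intro f hf
    rw [RingHom.mem_ker, phi, coe_eval₂RingHom, eval₂_at_zero] at hf
    have h1 : f.coeff 0 ∈ span {(⟨1, 1⟩ : GaussianInt)} := by
      rw [← ker_red]; exact hf
    rw [mem_span_singleton] at h1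
    obtain ⟨c, hc⟩ := h1
    rw [mem_span_pair]
    refine ⟨C c, f.divX, ?_⟩
    rw [← C_mul, mul_comm c, ← hc, add_comm]
    exact divX_mul_X_add f
  · rw [span_le]
    rintro f (rfl | rfl)
    · simp only [SetLike.mem_coe, RingHom.mem_ker, phi, coe_eval₂RingHom, eval₂_C, red_apply]
      decide
    · simp [phi]

theorem phi_surj : Function.Surjective phi := by
  intro z
  have : z = 0 ∨ z = 1 := by revert z; decide
  rcases this with rfl | rfl
  · exact ⟨0, map_zero _⟩
  · exact ⟨1, map_one _⟩

instance : (RingHom.ker phi).IsMaximal := RingHom.ker_isMaximal_of_surjective phi phi_surj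

/-- The localization of `ℤ[i][X]` at the maximal ideal `(1 + i, X)`. -/
abbrev R : Type := Localization.AtPrime (RingHom.ker phi)

theorem compl_le : (RingHom.ker phi).primeCompl ≤ nonZeroDivisors GaussianInt[X] :=
  Ideal.primeCompl_le_nonZeroDivisors (RingHom.ker phi)

instance : IsDomain R := IsLocalization.isDomain_localization compl_le
instance : IsNoetherianRing R :=
  IsLocalization.isNoetherianRing (RingHom.ker phi).primeCompl _ inferInstance

/-- The structure map. -/
noncomputable abbrev am : GaussianInt[X] →+* R := algebraMap GaussianInt[X] R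

theorem am_inj : Function.Injective am := IsLocalization.injective R compl_le

theorem maxR : IsLocalRing.maximalIdeal R = span {am (C ⟨1, 1⟩), am X} := by
  have h := congrArg (Ideal.map am) ker_phi
  rw [map_span, Set.image_pair] at h
  rw [← h]
  exact (Localization.AtPrime.map_eq_maximalIdeal (I := RingHom.ker phi)).symm

theorem primeR : Prime (am (C ⟨1, 1⟩)) := by
  have hp : Prime (C (⟨1, 1⟩ : GaussianInt)) := prime_C_iff.2 prime_one_add_i
  have hprime : (span {C (⟨1, 1⟩ : GaussianInt)}).IsPrime :=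
    (span_singleton_prime hp.ne_zero).2 hp
  have hdisj : Disjoint ((RingHom.ker phi).primeCompl : Set GaussianInt[X])
      (span {C (⟨1, 1⟩ : GaussianInt)} : Ideal GaussianInt[X]) := by
    rw [Set.disjoint_left]
    intro f hf hf2
    apply hf
    rw [ker_phi]
    exact span_mono (by simp) hf2
  have h := IsLocalization.isPrime_of_isPrime_disjoint (RingHom.ker phi).primeCompl R _ hprime
    hdisj
  rw [map_span, Set.image_singleton, span_singleton_prime] at h
  · exact h
  · intro h0
    exact hp.ne_zero (am_inj (by rw [map_zero]; exact h0))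

theorem not_dvd : ¬ (am (C ⟨1, 1⟩)) ∣ am X := by
  intro h
  have hp : Prime (C (⟨1, 1⟩ : GaussianInt)) := prime_C_iff.2 prime_one_add_i
  obtain ⟨r, hr⟩ := h
  obtain ⟨⟨f, d⟩, hfd⟩ := IsLocalization.surj (RingHom.ker phi).primeCompl r
  have h1 : X * (d : GaussianInt[X]) = C ⟨1, 1⟩ * f := by
    apply am_inj
    rw [map_mul, map_mul, hr, mul_assoc]
    exact congrArg _ hfd
  have h2 : C (⟨1, 1⟩ : GaussianInt) ∣ X * (d : GaussianInt[X]) := ⟨_, h1⟩
  rcases hp.dvd_or_dvd h2 with h3 | h3
  · rw [C_dvd_iff_dvd_coeff] at h3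
    have := h3 1
    rw [coeff_X_one] at this
    exact prime_one_add_i.not_isUnit (isUnit_of_dvd_one this)
  · apply d.2
    have h4 : span {C (⟨1, 1⟩ : GaussianInt)} ≤ RingHom.ker phi := by
      rw [ker_phi]
      exact span_mono (by simp)
    exact h4 (mem_span_singleton.2 h3)

theorem i_sq : am (C ⟨0, 1⟩) * am (C ⟨0, 1⟩) = -1 := by
  rw [← map_mul, ← C_mul]
  have : (⟨0, 1⟩ * ⟨0, 1⟩ : GaussianInt) = -1 := by decide
  rw [this, C_neg, C_1, map_neg, map_one]

theorem two_eq : (2 : R) = -am (C ⟨0, 1⟩) * am (C ⟨1, 1⟩) ^ 2 := by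
  rw [← map_pow, ← C_pow, ← map_neg, ← C_neg, ← map_mul, ← C_mul]
  have : (-⟨0, 1⟩ * ⟨1, 1⟩ ^ 2 : GaussianInt) = 2 := by decide
  rw [this, C_ofNat, map_ofNat]

/-- The negation of the preceding statement: For every 2-dimensional regular local ring R with fraction field K, and every n, every sum of squares in R is a sum of n squares iff the same holds in K; that is, the Pythagoras numbers of R and K agree. -/
theorem result :
    ¬ (∀ (R : Type) [CommRing R] [IsDomain R] [IsLocalRing R] [IsNoetherianRing R],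
      ringKrullDim R = 2 →
      (∃ a b : R, IsLocalRing.maximalIdeal R = Ideal.span {a, b}) →
      ∀ (K : Type) [Field K] [Algebra R K] [IsFractionRing R K],
      ∀ n : ℕ,
        ((∀ x : R, IsSumSq x → ∃ f : Fin n → R, x = ∑ i, f i ^ 2) ↔
          (∀ x : K, IsSumSq x → ∃ f : Fin n → K, x = ∑ i, f i ^ 2))) := by
  intro H
  have hd := T6.H24.Pyth.krullDim_eq_two maxR primeR not_dvd
  exact T6.H24.Pyth.pythagoras_ne maxR primeR not_dvd i_sq two_eq
    (fun K _ _ _ => H R hd ⟨_, _, maxR⟩ K)

end Pool.Agent.S01012
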