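import Pool.Statements.S02813
import Pool.Agent.T6.H25.GG.A1
import Pool.Agent.T6.H25.GG.A2
import Pool.Agent.T6.H25.GG.ALG
import Pool.Agent.T6.H25.GG.B
import Pool.Agent.T6.H25.GG.Base
import Pool.Agent.T6.H25.GG.C
import Pool.Agent.T6.H25.GG.CST
import Pool.Agent.T6.H25.GG.D
import Pool.Agent.T6.H25.GG.E
import Pool.Agent.T6.H25.GG.EL
import Pool.Agent.T6.H25.GG.Fin
import Pool.Agent.T6.H25.GG.G0
import Pool.Agent.T6.H25.GG.G1
import Pool.Agent.T6.H25.GG.G2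
import Pool.Agent.T6.H25.GG.GS
import Pool.Agent.T6.H25.GG.H
import Pool.Agent.T6.H25.GG.H1
import Pool.Agent.T6.H25.GG.I
import Pool.Agent.T6.H25.GG.J1
import Pool.Agent.T6.H25.GG.J2
import Pool.Agent.T6.H25.GG.L
import Pool.Agent.T6.H25.GG.L1
import Pool.Agent.T6.H25.GG.L2
import Pool.Agent.T6.H25.GG.MV
import Pool.Agent.T6.H25.GG.PAR
import Pool.Agent.T6.H25.GG.Q
import Pool.Agent.T6.H25.GG.SYM
import Pool.Agent.T6.H25.GG.U

set_option autoImplicit false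
open Pool Pool.MP_b6554e_al

namespace Pool.Agent.S02813

/-- There is a group with a finite generating set S whose count of geodesic words (letters from S and inverses) of length at most n is polynomially bounded, yet is not within constant factors of n^c for any natural c. -/
theorem result :
    ∃ (G : Type) (_ : Group G) (S : Finset G) (γ : ℕ → ℕ),
      Subgroup.closure (S : Set G) = ⊤ ∧
      (∀ n : ℕ, γ n = Set.ncard {w : List G | w.length ≤ n ∧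
          (∀ x ∈ w, x ∈ S ∨ x⁻¹ ∈ S) ∧
          ∀ v : List G, (∀ x ∈ v, x ∈ S ∨ x⁻¹ ∈ S) → v.prod = w.prod →
            w.length ≤ v.length}) ∧
      (∃ C d : ℕ, ∀ n : ℕ, 1 ≤ n → γ n ≤ C * n ^ d) ∧
      ∀ c : ℕ, ¬ ∃ C : ℕ, ∀ n : ℕ, 1 ≤ n → n ^ c ≤ C * γ n ∧ γ n ≤ C * n ^ c := by
  have hPAR := Pool.Agent.T6.H25.GG.par
  have hALG := Pool.Agent.T6.H25.GG.alg
  have hB := Pool.Agent.T6.H25.GG.b_cut
  have hSYM := Pool.Agent.T6.H25.GG.sym hPAR
  have hMV := Pool.Agent.T6.H25.GG.mv hALG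
  have hCST := Pool.Agent.T6.H25.GG.cst
  have hC := Pool.Agent.T6.H25.GG.c hB hPAR hALG hSYM
  have hD := Pool.Agent.T6.H25.GG.d hC hPAR hSYM
  have hE := Pool.Agent.T6.H25.GG.e
  have hEL := Pool.Agent.T6.H25.GG.el hD hE hMV hPAR hALG
  have hG0 := Pool.Agent.T6.H25.GG.g0 hALG hPAR hMV hCST hD hEL
  have hG1 := Pool.Agent.T6.H25.GG.g1 hALG hPAR hMV hCST hD hEL
  have hG2 := Pool.Agent.T6.H25.GG.g2 hALG hPAR hMV hD
  have hGS := Pool.Agent.T6.H25.GG.gs hPAR hG0 hG1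
  have hH := Pool.Agent.T6.H25.GG.h Pool.Agent.T6.H25.GG.h1
  have hI := Pool.Agent.T6.H25.GG.i
  have hQ := Pool.Agent.T6.H25.GG.q
  have hJ1 := Pool.Agent.T6.H25.GG.j1 hD hMV hALG
  have hJ2 := Pool.Agent.T6.H25.GG.j2
  have hU := Pool.Agent.T6.H25.GG.u hB hALG hSYM hD hG0 hG1 hG2 hGS hH hI hQ hJ1 hJ2
  have hL := Pool.Agent.T6.H25.GG.l (Pool.Agent.T6.H25.GG.l1 hPAR) (Pool.Agent.T6.H25.GG.l2 hB hALG)
  have : NeZero (3 * (2 * 250)) := ⟨by norm_num⟩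
  exact Pool.Agent.T6.H25.GG.Fin'.main Pool.Agent.T6.H25.GG.a1 Pool.Agent.T6.H25.GG.a2 hD hU hL
    250 (by norm_num)

end Pool.Agent.S02813
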