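import Pool.Statements.S03375
import Pool.Agent.T6.H88.FP.Fin

set_option autoImplicit false
open Pool Pool.MP_e56c9f_al

namespace Pool.Agent.S03375

/-- For every prime p and n ≥ 1: if an elementary abelian group V of order p^n acts faithfully by automorphisms on a finite group G with only the identity fixed, then the intersection of the subgroups [G,v] over all v ≠ 1 in V is nilpotent. -/
theorem result :
    ∀ (p n : ℕ), p.Prime → 1 ≤ n →
    ∀ (G : Type) [Group G] [Finite G] (V : Type) [CommGroup V] [Finite V]
      [MulDistribMulAction V G] [FaithfulSMul V G],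
      Nat.card V = p ^ n →
      (∀ v : V, v ^ p = 1) →
      (∀ g : G, (∀ v : V, v • g = g) → g = 1) →
      Group.IsNilpotent
        (↥((⨅ (v : V) (_ : v ≠ 1),
          Subgroup.closure {x : G | ∃ g : G, x = g⁻¹ * (v • g)}) : Subgroup G)) := by
  exact Pool.Agent.T6.H88.FP.e1 Pool.Agent.T6.H88.FP.mainSol Pool.Agent.T6.H88.FP.solv

end Pool.Agent.S03375
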