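import Pool.Statements.S04009
import Pool.Agent.T6.H45.Jos14

set_option autoImplicit false
open Filter Topology
open Pool Pool.MP_1f2107_an

namespace Pool.Agent.S04009

/-- For every ω>0, integer r≥1 and real A, no solution of φ' = −sin φ + ω(r−2) + A cos(ωt) has rotation number φ(t)/(ωt) → r; i.e. the phase-lock area L_r misses the line B = ω(r−2). -/
theorem result :
    ∀ ω : ℝ, 0 < ω → ∀ r : ℕ, 1 ≤ r → ∀ A : ℝ, ∀ φ : ℝ → ℝ,
      (∀ t : ℝ, HasDerivAt φ
        (-Real.sin (φ t) + ω * ((r : ℝ) - 2) + A * Real.cos (ω * t)) t) →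
      ¬ Tendsto (fun t : ℝ => φ t / (ω * t)) atTop (𝓝 (r : ℝ)) := by
  intro ω hω r hr A φ hφ h
  have hx : Pool.Agent.T6.H45.Jos.IsSol ((r : ℝ) - 2) (A / ω) (1 / ω) (fun τ => φ (τ / ω)) := by
    intro τ
    have h1 : HasDerivAt (fun τ : ℝ => τ / ω) (1 / ω) τ := (hasDerivAt_id τ).div_const ω
    have h2 := HasDerivAt.comp τ (hφ (τ / ω)) h1
    refine h2.congr_deriv ?_
    unfold Pool.Agent.T6.H45.Jos.fld
    have e : ω * (τ / ω) = τ := by field_simp
    rw [e]
    field_simp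
    ring
  apply Pool.Agent.T6.H45.Jos.main_all (by positivity : (0 : ℝ) < 1 / ω) hr hx
  have h3 : Tendsto (fun τ : ℝ => τ / ω) atTop atTop := tendsto_id.atTop_div_const hω
  have h4 := h.comp h3
  refine h4.congr ?_
  intro τ
  simp only [Function.comp]
  congr 1
  field_simp

end Pool.Agent.S04009
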