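import Pool.Statements.S04319
-- import your own Pool.Agent.* helpers here
import Pool.Agent.T6.H51.NS.MF
import Pool.Agent.T6.H51.NS.Lie

set_option autoImplicit false
open Pool Pool.MP_35c333_an

namespace Pool.Agent.S04319

/-- For G/Γ with G a nilpotent Lie group, Γ discrete cocompact, and translation by g with every power minimal: for integer polynomials p_i with p_i(0)=0, k≥1, 0≤j<k, and nonempty open U, some n≥1 has x in U with g^{p_i(kn+j)}x in U for all i. -/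
theorem result :
  ∀ (E : Type) [NormedAddCommGroup E] [NormedSpace ℝ E] [FiniteDimensional ℝ E]
    (G : Type) [Group G] [TopologicalSpace G] [ChartedSpace E G]
    [LieGroup (modelWithCornersSelf ℝ E) ((⊤ : ℕ∞) : WithTop ℕ∞) G] [Group.IsNilpotent G]
    (Γ : Subgroup G), DiscreteTopology Γ → CompactSpace (G ⧸ Γ) →
    ∀ g : G, (∀ m : ℕ, 0 < m → ∀ x : G ⧸ Γ,
        Dense (Set.range (fun n : ℤ => (g ^ m) ^ n • x))) →
    ∀ (d : ℕ) (p : Fin d → Polynomial ℤ), (∀ i, (p i).eval 0 = 0) →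
    ∀ k : ℕ, 0 < k → ∀ j : ℕ, j < k →
    ∀ U : Set (G ⧸ Γ), IsOpen U → U.Nonempty →
    ∃ n : ℕ, 0 < n ∧ ∃ x ∈ U, ∀ i, g ^ ((p i).eval ((k : ℤ) * (n : ℤ) + (j : ℤ))) • x ∈ U := by
  intro E _ _ _ G _ _ _ _ _ Γ hΓ hX g hg d p hp k hk j _ U hU hUne
  obtain ⟨G₁, _, _, _, N, Γ₁, a, π, hS, hπc, hπs, hπ⟩ :=
    Pool.Agent.T6.H51.NS.lie_reduce E G Γ hΓ hX g hg
  let D : ℕ := Finset.univ.sup fun i => (p i).natDegree
  have hD : ∀ i, (p i).natDegree ≤ D := fun i =>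
    Finset.le_sup (f := fun i => (p i).natDegree) (Finset.mem_univ i)
  let q : Fin d → Pool.Agent.T6.H51.NS.A D := fun i l => (p i).coeff ((l : ℕ) + 1)
  have hq : ∀ i (t : ℤ), Pool.Agent.T6.H51.NS.ev (q i) t = (p i).eval t := by
    intro i t
    rw [← Pool.Agent.T6.H51.NS.eval_pol, Pool.Agent.T6.H51.NS.pol_coeff (hD i),
      Polynomial.coeff_zero_eq_eval_zero, hp i]
    simp
  obtain ⟨u, hu⟩ := hUne
  obtain ⟨x, rfl⟩ := hπs u
  obtain ⟨y, rfl⟩ := QuotientGroup.mk_surjective x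
  let V : Set (G₁ ⧸ Γ₁) := π ⁻¹' U
  have hV : IsOpen V := hU.preimage hπc
  let O : Set (Pool.Agent.T6.H51.NS.A D → G₁ ⧸ Γ₁) := {z | z 0 ∈ V} ∩ ⋂ i, {z | z (q i) ∈ V}
  have hO : IsOpen O := (hV.preimage (continuous_apply (0 : Pool.Agent.T6.H51.NS.A D))).inter
    (isOpen_iInter_of_finite fun i => hV.preimage (continuous_apply (q i)))
  obtain ⟨n, hn, m, hm⟩ := Pool.Agent.T6.H51.NS.recurrence hS D hk j y O hO
    ⟨hu, Set.mem_iInter.2 fun i => hu⟩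
  refine ⟨n, hn, π (a ^ m • ((1 : G₁) : G₁ ⧸ Γ₁)), ?_, fun i => ?_⟩
  · have h1 : a ^ (Pool.Agent.T6.H51.NS.ev (0 : Pool.Agent.T6.H51.NS.A D)
        ((k : ℤ) * n + j) + m) • ((1 : G₁) : G₁ ⧸ Γ₁) ∈ V := hm.1
    rw [Pool.Agent.T6.H51.NS.ev_zero_left, zero_add] at h1
    exact h1
  · have h1 : a ^ (Pool.Agent.T6.H51.NS.ev (q i) ((k : ℤ) * n + j) + m) •
        ((1 : G₁) : G₁ ⧸ Γ₁) ∈ V := Set.mem_iInter.1 hm.2 i
    rw [hq, zpow_add, mul_smul] at h1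
    rw [← hπ]
    exact h1

end Pool.Agent.S04319
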