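import Pool.Statements.S06280

/-!
The monomial map `f(z) = (z₀² z₁, z₁ z₂, z₀⁴ z₂)` of `ℂ³`: the orders of vanishing of its iterates
are `min (x₁(k)) (x₂(k))`, where `x(k) = Aᵏ (1, 1, 1)`, `A = [[2,1,0],[0,1,1],[4,0,1]]`.
The Perron eigenvector of `A` is `(1, 1, 2)`, the other eigenvalues are `(1 ± √-7)/2`, and
`x₁(k) - x₂(k)` is the Lucas sequence `0, 1, 1, -1, -3, -1, 5, …`, whose signs are not eventually
periodic. Reducing modulo two, a linear recursion for the orders would make them periodic.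
-/

set_option autoImplicit false
open Pool Pool.MP_d4c9a2_an

namespace Pool.Agent.S06280

/-- the monomial map -/
noncomputable def ff (z : Fin 3 → ℂ) : Fin 3 → ℂ :=
  ![z 0 ^ 2 * z 1, z 1 * z 2, z 0 ^ 4 * z 2]

/-- exponents of the iterates -/
def ex : ℕ → Fin 3 → Fin 3 → ℕ
  | 0 => fun i j => if i = j then 1 else 0
  | k + 1 => fun i j => ![2 * ex k 0 j + ex k 1 j, ex k 1 j + ex k 2 j, 4 * ex k 0 j + ex k 2 j] i

theorem ff_iter (k : ℕ) (z : Fin 3 → ℂ) (i : Fin 3) :
    (ff^[k] z) i = ∏ j, z j ^ ex k i j := by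
  induction k generalizing i with
  | zero =>
    simp only [Function.iterate_zero, id_eq, ex]
    fin_cases i <;> simp [Fin.prod_univ_three]
  | succ k ih =>
    rw [Function.iterate_succ_apply']
    simp only [ff, ex]
    fin_cases i
    · simp only [Fin.prod_univ_three] at ih ⊢
      simp [ih]
      ring
    · simp only [Fin.prod_univ_three] at ih ⊢
      simp [ih]
      ring
    · simp only [Fin.prod_univ_three] at ih ⊢
      simp [ih]
      ring

/-- row sums: orders of the components of the iterates -/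
def xx (k : ℕ) (i : Fin 3) : ℕ := ∑ j, ex k i j

theorem xx_zero (i : Fin 3) : xx 0 i = 1 := by
  fin_cases i <;> simp [xx, ex, Fin.sum_univ_three]

theorem xx_succ0 (k : ℕ) : xx (k + 1) 0 = 2 * xx k 0 + xx k 1 := by
  simp [xx, ex, Fin.sum_univ_three]; ring

theorem xx_succ1 (k : ℕ) : xx (k + 1) 1 = xx k 1 + xx k 2 := by
  simp [xx, ex, Fin.sum_univ_three]; ring

theorem xx_succ2 (k : ℕ) : xx (k + 1) 2 = 4 * xx k 0 + xx k 2 := by
  simp [xx, ex, Fin.sum_univ_three]; ring

theorem xx_ineq (k : ℕ) : xx k 2 ≤ 8 * xx k 0 + 3 * xx k 1 ∧ xx k 1 ≤ 4 * xx k 0 ∧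
    xx k 1 ≤ xx k 2 ∧ xx k 0 ≤ xx k 2 := by
  induction k with
  | zero => simp [xx_zero]
  | succ k ih =>
    obtain ⟨h1, h2, h3, h4⟩ := ih
    rw [xx_succ0, xx_succ1, xx_succ2]
    omega

section order

variable (e : Fin 3 → ℕ)

theorem mono_analytic (x : Fin 3 → ℂ) : AnalyticAt ℂ (fun z : Fin 3 → ℂ => ∏ j, z j ^ e j) x := by
  refine Finset.analyticAt_fun_prod _ fun j _ => ?_
  exact ((ContinuousLinearMap.proj (R := ℂ) (φ := fun _ : Fin 3 => ℂ) j).analyticAt x).pow _

theorem mono_contDiff (n : WithTop ℕ∞) : ContDiff ℂ n (fun z : Fin 3 → ℂ => ∏ j, z j ^ e j) := by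
  refine contDiff_prod fun j _ => ?_
  exact (contDiff_apply ℂ ℂ j).pow _

theorem mono_deriv_zero {m : ℕ} (hm : m ≠ ∑ j, e j) :
    iteratedFDeriv ℂ m (fun z : Fin 3 → ℂ => ∏ j, z j ^ e j) 0 = 0 := by
  set h : (Fin 3 → ℂ) → ℂ := fun z => ∏ j, z j ^ e j with hh
  have h1 : (fun z => h ((2 : ℂ) • z)) = fun z => (2 : ℂ) ^ (∑ j, e j) • h z := by
    funext z
    simp only [hh, Pi.smul_apply, smul_eq_mul, mul_pow, Finset.prod_mul_distrib,
      Finset.prod_pow_eq_pow_sum]
  have h2 : iteratedFDeriv ℂ m (fun z => h ((2 : ℂ) • z)) 0 =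
      (2 : ℂ) ^ m • iteratedFDeriv ℂ m h 0 := by
    have := congrFun (iteratedFDeriv_comp_const_smul (𝕜 := ℂ) (i := m) (f := h) (2 : ℂ)
      (mono_contDiff e m)) 0
    simpa using this
  have h3 : iteratedFDeriv ℂ m (fun z => (2 : ℂ) ^ (∑ j, e j) • h z) 0 =
      (2 : ℂ) ^ (∑ j, e j) • iteratedFDeriv ℂ m h 0 := by
    have := iteratedFDeriv_const_smul_apply (𝕜 := ℂ) (i := m) (a := (2 : ℂ) ^ (∑ j, e j))
      (f := h) (x := 0) ((mono_contDiff e m).contDiffAt)
    exact this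
  rw [h1, h3] at h2
  have h4 : ((2 : ℂ) ^ (∑ j, e j) - (2 : ℂ) ^ m) • iteratedFDeriv ℂ m h 0 = 0 := by
    rw [sub_smul, h2, sub_self]
  rcases smul_eq_zero.1 h4 with h5 | h5
  · exfalso
    apply hm
    have h6 : (2 : ℂ) ^ (∑ j, e j) = (2 : ℂ) ^ m := sub_eq_zero.1 h5
    have h7 : (2 : ℕ) ^ (∑ j, e j) = 2 ^ m := by exact_mod_cast h6
    exact (Nat.pow_right_injective le_rfl h7).symm
  · exact h5

theorem mono_deriv_ne :
    iteratedFDeriv ℂ (∑ j, e j) (fun z : Fin 3 → ℂ => ∏ j, z j ^ e j) 0 ≠ 0 := by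
  intro h0
  set h : (Fin 3 → ℂ) → ℂ := fun z => ∏ j, z j ^ e j with hh
  have hall : ∀ m, iteratedFDeriv ℂ m h 0 = 0 := by
    intro m
    by_cases hm : m = ∑ j, e j
    · rw [hm]; exact h0
    · exact mono_deriv_zero e hm
  obtain ⟨p, hp⟩ := mono_analytic e 0
  obtain ⟨r, hr⟩ := hp
  have hz : ∀ y : Fin 3 → ℂ, y ∈ Metric.eball (0 : Fin 3 → ℂ) r → h y = 0 := by
    intro y hy
    have h1 := hr.hasSum hy
    have h2 : ∀ m, p m (fun _ => y) = 0 := by
      intro m
      have h3 := hr.factorial_smul y m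
      rw [hall m] at h3
      simp only [ContinuousMultilinearMap.zero_apply, smul_eq_zero] at h3
      rcases h3 with h3 | h3
      · exact absurd h3 (Nat.factorial_ne_zero m)
      · exact h3
    simp only [h2, zero_add] at h1
    exact h1.unique hasSum_zero
  have h5 : ∃ ε : ℝ, 0 < ε ∧ ENNReal.ofReal ε < r := by
    rcases ENNReal.lt_iff_exists_nnreal_btwn.1 hr.r_pos with ⟨ε, h6, h7⟩
    exact ⟨ε, by exact_mod_cast h6, by simpa using h7⟩
  obtain ⟨ε, hε, hεr⟩ := h5
  have h6 := hz (fun _ => (ε : ℂ)) (by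
    rw [Metric.mem_eball, edist_dist, dist_zero_right]
    refine lt_of_le_of_lt (ENNReal.ofReal_le_ofReal ?_) hεr
    rw [pi_norm_le_iff_of_nonneg hε.le]
    intro i
    simp [abs_of_pos hε])
  simp only [hh, Finset.prod_pow_eq_pow_sum] at h6
  have : (ε : ℂ) ≠ 0 := by exact_mod_cast hε.ne'
  exact pow_ne_zero _ this h6

end order

theorem iter_deriv (k m : ℕ) :
    iteratedFDeriv ℂ m (ff^[k]) 0 ≠ 0 ↔ ∃ i, m = xx k i := by
  have hcd : ∀ i : Fin 3, ContDiff ℂ m (fun z => (ff^[k] z) i) := by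
    intro i
    have : (fun z => (ff^[k] z) i) = fun z => ∏ j, z j ^ ex k i j := by
      funext z; exact ff_iter k z i
    rw [this]
    exact mono_contDiff _ _
  have hcd' : ContDiff ℂ m (ff^[k]) := contDiff_pi.2 hcd
  have hcomp : ∀ i v, (iteratedFDeriv ℂ m (ff^[k]) 0 v) i =
      iteratedFDeriv ℂ m (fun z : Fin 3 → ℂ => ∏ j, z j ^ ex k i j) 0 v := by
    intro i v
    have h1 := (ContinuousLinearMap.proj (R := ℂ) (φ := fun _ : Fin 3 => ℂ) i).iteratedFDeriv_comp_left
      (f := ff^[k]) (x := 0) (n := m) (hcd'.contDiffAt) (i := m) le_rfl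
    have h2 : (⇑(ContinuousLinearMap.proj (R := ℂ) (φ := fun _ : Fin 3 => ℂ) i) ∘ ff^[k]) =
        fun z : Fin 3 → ℂ => ∏ j, z j ^ ex k i j := by
      funext z
      exact ff_iter k z i
    rw [h2] at h1
    rw [h1]
    rfl
  constructor
  · intro h
    by_contra hne
    push Not at hne
    apply h
    ext v i
    rw [hcomp i v, mono_deriv_zero _ (hne i)]
    rfl
  · rintro ⟨i, hi⟩ h0
    apply mono_deriv_ne (ex k i)
    ext v
    have := hcomp i (hi ▸ v)
    subst hi
    rw [h0] at this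
    have h3 := this
    simp only [ContinuousMultilinearMap.zero_apply, Pi.zero_apply] at h3 ⊢
    exact h3.symm

theorem order_eq (k : ℕ) :
    sInf {m : ℕ | iteratedFDeriv ℂ m (ff^[k]) 0 ≠ 0} = min (xx k 0) (xx k 1) := by
  have hset : {m : ℕ | iteratedFDeriv ℂ m (ff^[k]) 0 ≠ 0} = {m | ∃ i, m = xx k i} := by
    ext m; exact iter_deriv k m
  rw [hset]
  obtain ⟨_, _, h3, h4⟩ := xx_ineq k
  apply le_antisymm
  · rcases le_total (xx k 0) (xx k 1) with h | h
    · rw [min_eq_left h]; exact Nat.sInf_le ⟨0, rfl⟩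
    · rw [min_eq_right h]; exact Nat.sInf_le ⟨1, rfl⟩
  · obtain ⟨i, hi⟩ := Nat.sInf_mem (s := {m | ∃ i, m = xx k i}) ⟨_, 0, rfl⟩
    rw [hi]
    fin_cases i
    · exact min_le_left _ _
    · exact min_le_right _ _
    · exact (min_le_left _ _).trans h4

/-! ### The Lucas sequence -/

/-- the Lucas sequence `0, 1, 1, -1, -3, …` -/
def U : ℕ → ℤ
  | 0 => 0
  | 1 => 1
  | n + 2 => U (n + 1) - 2 * U n

theorem U_succ (n : ℕ) : U (n + 2) = U (n + 1) - 2 * U n := rfl

theorem xx_diff (k : ℕ) : (xx k 0 : ℤ) - xx k 1 = U k ∧ (xx k 2 : ℤ) - 2 * xx k 0 = - U (k + 1) := by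
  induction k with
  | zero => simp [xx_zero, U]
  | succ k ih =>
    obtain ⟨h1, h2⟩ := ih
    rw [xx_succ0, xx_succ1, xx_succ2, U_succ]
    push_cast
    constructor <;> linarith

theorem U_odd (n : ℕ) : U (n + 1) % 2 = 1 := by
  induction n with
  | zero => rfl
  | succ n ih =>
    rw [U_succ]
    omega

theorem U_ne (n : ℕ) : U (n + 1) ≠ 0 := by
  intro h
  have := U_odd n
  rw [h] at this
  norm_num at this

theorem U_inv (n : ℕ) : U (n + 1) ^ 2 - U n * U (n + 1) + 2 * U n ^ 2 = 2 ^ n := by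
  induction n with
  | zero => simp [U]
  | succ n ih =>
    rw [U_succ, pow_succ (2 : ℤ) n, ← ih]
    ring

theorem U_add (m n : ℕ) : U (m + n + 1) = U (m + 1) * U (n + 1) - 2 * U m * U n ∧
    U (m + n + 2) = U (m + 2) * U (n + 1) - 2 * U (m + 1) * U n := by
  induction m with
  | zero => simp [U]
  | succ m ih =>
    obtain ⟨h1, h2⟩ := ih
    constructor
    · have : m + 1 + n + 1 = m + n + 2 := by ring
      rw [this, h2]
    · have e1 : m + 1 + n + 2 = (m + n + 1) + 2 := by ring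
      have e2 : m + 1 + 2 = (m + 1) + 2 := rfl
      have e3 : m + n + 1 + 1 = m + n + 2 := rfl
      rw [e1, U_succ (m + n + 1), e3, h1, h2, U_succ (m + 1), U_succ m]
      ring

theorem U_step (P n : ℕ) : U (n + 2 * P) = (2 * U (P + 1) - U P) * U (n + P) - 2 ^ P * U n ∧
    U (n + 1 + 2 * P) = (2 * U (P + 1) - U P) * U (n + 1 + P) - 2 ^ P * U (n + 1) := by
  induction n with
  | zero =>
    have hinv := U_inv P
    constructor
    · cases P with
      | zero => simp [U]
      | succ P =>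
        obtain ⟨_, h2⟩ := U_add P P
        obtain ⟨h1, _⟩ := U_add (P + 1) P
        have e1 : 0 + 2 * (P + 1) = P + 1 + P + 1 := by ring
        rw [e1, h1]
        simp only [Nat.zero_add, U, mul_zero, sub_zero]
        ring
    · obtain ⟨h1, _⟩ := U_add P P
      have e1 : 0 + 1 + 2 * P = P + P + 1 := by ring
      have e2 : 0 + 1 + P = P + 1 := by ring
      rw [e1, e2, h1, ← hinv]
      have : U (0 + 1) = 1 := rfl
      rw [this]
      ring
  | succ n ih =>
    obtain ⟨h1, h2⟩ := ih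
    refine ⟨h2, ?_⟩
    have e1 : n + 1 + 1 + 2 * P = (n + 2 * P) + 2 := by ring
    have e2 : n + 1 + 1 + P = (n + P) + 2 := by ring
    have e3 : n + 2 * P + 1 = n + 1 + 2 * P := by ring
    have e4 : n + P + 1 = n + 1 + P := by ring
    rw [e1, e2, U_succ (n + 2 * P), U_succ (n + P), e3, e4, h1, h2, U_succ n]
    ring

/-- a positive sequence cannot satisfy a recursion with complex characteristic roots -/
theorem no_pos (T Q : ℝ) (hTQ : T ^ 2 < 4 * Q) (W : ℕ → ℝ)
    (hW : ∀ j, W (j + 2) = T * W (j + 1) - Q * W j) (hpos : ∀ j, 0 < W j) : False := by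
  set ρ : ℕ → ℝ := fun j => W (j + 1) / W j with hρ
  have hρpos : ∀ j, 0 < ρ j := fun j => div_pos (hpos _) (hpos _)
  set δ := Q - T ^ 2 / 4 with hδ
  have hδpos : 0 < δ := by rw [hδ]; linarith
  have hstep : ∀ j, ρ (j + 1) ≤ ρ j - δ / ρ j := by
    intro j
    have h1 : ρ (j + 1) = T - Q / ρ j := by
      simp only [hρ]
      rw [hW j]
      field_simp [(hpos j).ne', (hpos (j + 1)).ne']
    rw [h1]
    have h2 := hρpos j
    have h3 : T * ρ j - Q ≤ ρ j * ρ j - δ := by
      rw [hδ]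
      nlinarith [sq_nonneg (ρ j - T / 2)]
    have h4 : (T * ρ j - Q) / ρ j ≤ (ρ j * ρ j - δ) / ρ j := by gcongr
    have h5 : (T * ρ j - Q) / ρ j = T - Q / ρ j := by field_simp
    have h6 : (ρ j * ρ j - δ) / ρ j = ρ j - δ / ρ j := by field_simp
    linarith
  have hle : ∀ j, ρ j ≤ ρ 0 - j * (δ / ρ 0) ∧ ρ j ≤ ρ 0 := by
    intro j
    induction j with
    | zero => simp
    | succ j ih =>
      have h1 := hstep j
      have h2 : δ / ρ 0 ≤ δ / ρ j := by
        apply div_le_div_of_nonneg_left hδpos.le (hρpos j) ih.2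
      have h3 : 0 < δ / ρ 0 := div_pos hδpos (hρpos 0)
      constructor
      · push_cast; linarith [ih.1]
      · linarith [ih.2]
  obtain ⟨j, hj⟩ := exists_nat_gt (ρ 0 / (δ / ρ 0))
  have h3 : 0 < δ / ρ 0 := div_pos hδpos (hρpos 0)
  have h4 : ρ 0 < j * (δ / ρ 0) := by
    rw [div_lt_iff₀ h3] at hj
    exact hj
  have := (hle j).1
  linarith [hρpos j]

theorem sign_aperiodic (P K : ℕ) (hP : 0 < P)
    (h : ∀ k, K ≤ k → (0 < U (k + P) ↔ 0 < U k)) : False := by
  have hTQ : ((2 * U (P + 1) - U P : ℤ) : ℝ) ^ 2 < 4 * ((2 : ℝ) ^ P) := by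
    have hinv := U_inv P
    have hne : U P ≠ 0 := by
      obtain ⟨p, rfl⟩ : ∃ p, P = p + 1 := ⟨P - 1, by omega⟩
      exact U_ne p
    have h1 : (2 * U (P + 1) - U P) ^ 2 < 4 * (2 : ℤ) ^ P := by
      rw [← hinv]
      have : 0 < U P ^ 2 := by positivity
      nlinarith
    exact_mod_cast h1
  set K' := K + 1 with hK'
  have hW : ∀ j, (fun j : ℕ => ((U (K' + j * P) : ℤ) : ℝ)) (j + 2) =
      ((2 * U (P + 1) - U P : ℤ) : ℝ) * (fun j : ℕ => ((U (K' + j * P) : ℤ) : ℝ)) (j + 1) -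
      (2 : ℝ) ^ P * (fun j : ℕ => ((U (K' + j * P) : ℤ) : ℝ)) j := by
    intro j
    have h1 := (U_step P (K' + j * P)).1
    have e1 : K' + (j + 2) * P = K' + j * P + 2 * P := by ring
    have e2 : K' + (j + 1) * P = K' + j * P + P := by ring
    simp only [e1, e2]
    exact_mod_cast h1
  have hne : ∀ j, U (K' + j * P) ≠ 0 := by
    intro j
    have : K' + j * P = (K + j * P) + 1 := by rw [hK']; ring
    rw [this]; exact U_ne _
  have hsgn : ∀ j, (0 < U (K' + j * P) ↔ 0 < U K') := by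
    intro j
    induction j with
    | zero => simp
    | succ j ih =>
      have e2 : K' + (j + 1) * P = K' + j * P + P := by ring
      rw [e2, h _ (by rw [hK']; nlinarith [Nat.zero_le (j * P)]), ih]
  by_cases hp : 0 < U K'
  · exact no_pos _ _ hTQ _ hW fun j => by
      have := (hsgn j).2 hp
      show (0 : ℝ) < ((U (K' + j * P) : ℤ) : ℝ)
      exact_mod_cast this
  · refine no_pos _ _ hTQ (fun j => - ((U (K' + j * P) : ℤ) : ℝ)) (fun j => ?_) fun j => ?_
    · have := hW j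
      simp only at this ⊢
      rw [this]; ring
    · have h1 : ¬ 0 < U (K' + j * P) := fun h2 => hp ((hsgn j).1 h2)
      have h2 := hne j
      have h3 : U (K' + j * P) < 0 := by omega
      have : ((U (K' + j * P) : ℤ) : ℝ) < 0 := by exact_mod_cast h3
      linarith

theorem no_recursion (d : ℕ) (a : Fin d → ℤ) (K : ℕ)
    (h : ∀ k : ℕ, K ≤ k → ((min (xx (k + d) 0) (xx (k + d) 1) : ℕ) : ℤ) =
      ∑ i : Fin d, a i * ((min (xx (k + i) 0) (xx (k + i) 1) : ℕ) : ℤ)) : False := by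
  -- reduction modulo two
  set c : ℕ → ZMod 2 := fun k => ((min (xx k 0) (xx k 1) : ℕ) : ZMod 2) with hc
  set y : ℕ → Fin 3 → ZMod 2 := fun k i => ((xx k i : ℕ) : ZMod 2) with hy
  set st : ℕ → (Fin d → ZMod 2) × (Fin 3 → ZMod 2) := fun k => (fun i => c (k + i), y k) with hst
  have hrec : ∀ k, K ≤ k → c (k + d) = ∑ i : Fin d, (a i : ZMod 2) * c (k + i) := by
    intro k hk
    have := congrArg (Int.cast : ℤ → ZMod 2) (h k hk)
    rw [Int.cast_natCast, Int.cast_sum] at this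
    rw [hc]
    simp only
    rw [this]
    refine Finset.sum_congr rfl fun i _ => ?_
    rw [Int.cast_mul, Int.cast_natCast]
  -- the state determines the next state
  have hnext : ∀ k l, K ≤ k → K ≤ l → st k = st l → st (k + 1) = st (l + 1) := by
    intro k l hk hl hkl
    have h1 : ∀ i : Fin d, c (k + i) = c (l + i) := fun i => congrFun (congrArg Prod.fst hkl) i
    have h2 : ∀ i, y k i = y l i := fun i => congrFun (congrArg Prod.snd hkl) i
    have h3 : c (k + d) = c (l + d) := by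
      rw [hrec k hk, hrec l hl]
      exact Finset.sum_congr rfl fun i _ => by rw [h1 i]
    refine Prod.ext ?_ ?_
    · funext i
      show c (k + 1 + i) = c (l + 1 + i)
      by_cases hi : (i : ℕ) + 1 < d
      · have := h1 ⟨i + 1, hi⟩
        simp only at this
        have e1 : k + 1 + (i : ℕ) = k + (i + 1) := by ring
        have e2 : l + 1 + (i : ℕ) = l + (i + 1) := by ring
        rw [e1, e2]; exact this
      · have hi' : (i : ℕ) + 1 = d := by have := i.2; omega
        have e1 : k + 1 + (i : ℕ) = k + d := by omega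
        have e2 : l + 1 + (i : ℕ) = l + d := by omega
        rw [e1, e2]; exact h3
    · funext i
      show y (k + 1) i = y (l + 1) i
      have g0 := h2 0
      have g1 := h2 1
      have g2 := h2 2
      simp only [hy] at g0 g1 g2 ⊢
      fin_cases i
      · show ((xx (k + 1) 0 : ℕ) : ZMod 2) = ((xx (l + 1) 0 : ℕ) : ZMod 2)
        rw [xx_succ0, xx_succ0]; push_cast; rw [g0, g1]
      · show ((xx (k + 1) 1 : ℕ) : ZMod 2) = ((xx (l + 1) 1 : ℕ) : ZMod 2)
        rw [xx_succ1, xx_succ1]; push_cast; rw [g1, g2]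
      · show ((xx (k + 1) 2 : ℕ) : ZMod 2) = ((xx (l + 1) 2 : ℕ) : ZMod 2)
        rw [xx_succ2, xx_succ2]; push_cast; rw [g0, g2]
  -- pigeonhole
  obtain ⟨k1, k2, hne, heq⟩ := Finite.exists_ne_map_eq_of_infinite (fun n : ℕ => st (K + n))
  wlog hlt : k1 < k2 generalizing k1 k2
  · exact this k2 k1 hne.symm heq.symm (by omega)
  set P := k2 - k1 with hP
  have hPpos : 0 < P := by omega
  have hper : ∀ j, st (K + k1 + j + P) = st (K + k1 + j) := by
    intro j
    induction j with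
    | zero =>
      have e1 : K + k1 + 0 + P = K + k2 := by omega
      rw [e1]; exact heq.symm
    | succ j ih =>
      have := hnext _ _ (by omega) (by omega) ih
      have e1 : K + k1 + (j + 1) + P = K + k1 + j + P + 1 := by ring
      rw [e1, this]; rfl
  by_cases hd : d = 0
  · subst hd
    have := h K le_rfl
    simp at this
    have h1 := xx_diff K
    have hx : ∀ k, 0 < xx k 0 ∧ 0 < xx k 1 := by
      intro k
      induction k with
      | zero => simp [xx_zero]
      | succ k ih => rw [xx_succ0, xx_succ1]; omega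
    have h2 := hx K
    omega
  refine sign_aperiodic P (K + k1 + 1) hPpos fun k hk => ?_
  obtain ⟨j, rfl⟩ : ∃ j, k = K + k1 + j := ⟨k - (K + k1), by omega⟩
  set k := K + k1 + j with hkdef
  have h0 := hper j
  have hd' : 0 < d := Nat.pos_of_ne_zero hd
  have hcc : c (k + P) = c k := by
    have := congrFun (congrArg Prod.fst h0) ⟨0, hd'⟩
    simpa [hst] using this
  have hy0 : y (k + P) 0 = y k 0 := congrFun (congrArg Prod.snd h0) 0
  have hy1 : y (k + P) 1 = y k 1 := congrFun (congrArg Prod.snd h0) 1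
  simp only [hc, hy] at hcc hy0 hy1
  rw [ZMod.natCast_eq_natCast_iff'] at hcc hy0 hy1
  have d1 := (xx_diff k).1
  have d2 := (xx_diff (k + P)).1
  have o1 : U k % 2 = 1 := by
    obtain ⟨q, hq⟩ : ∃ q, k = q + 1 := ⟨k - 1, by omega⟩
    rw [hq]; exact U_odd q
  have o2 : U (k + P) % 2 = 1 := by
    obtain ⟨q, hq⟩ : ∃ q, k + P = q + 1 := ⟨k + P - 1, by omega⟩
    rw [hq]; exact U_odd q
  omega

theorem ff_analytic (x : Fin 3 → ℂ) : AnalyticAt ℂ ff x := by
  have : ∀ i, AnalyticAt ℂ (fun z => ff z i) x := by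
    intro i
    have h1 : (fun z => ff z i) = fun z => ∏ j, z j ^ ex 1 i j := by
      funext z
      have := ff_iter 1 z i
      simpa using this
    rw [h1]
    exact mono_analytic _ _
  exact AnalyticAt.pi this

theorem ff_hasFDerivAt (z : Fin 3 → ℂ) : HasFDerivAt ff
    (ContinuousLinearMap.pi ![
      (2 * z 0 * z 1) • ContinuousLinearMap.proj (R := ℂ) (φ := fun _ : Fin 3 => ℂ) 0 +
        (z 0 ^ 2) • ContinuousLinearMap.proj (R := ℂ) (φ := fun _ : Fin 3 => ℂ) 1,
      (z 2) • ContinuousLinearMap.proj (R := ℂ) (φ := fun _ : Fin 3 => ℂ) 1 +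
        (z 1) • ContinuousLinearMap.proj (R := ℂ) (φ := fun _ : Fin 3 => ℂ) 2,
      (4 * z 0 ^ 3 * z 2) • ContinuousLinearMap.proj (R := ℂ) (φ := fun _ : Fin 3 => ℂ) 0 +
        (z 0 ^ 4) • ContinuousLinearMap.proj (R := ℂ) (φ := fun _ : Fin 3 => ℂ) 2]) z := by
  rw [hasFDerivAt_pi']
  intro i
  have hp : ∀ i : Fin 3, HasFDerivAt (fun w : Fin 3 → ℂ => w i)
      (ContinuousLinearMap.proj (R := ℂ) (φ := fun _ : Fin 3 => ℂ) i) z :=
    fun i => (ContinuousLinearMap.proj (R := ℂ) (φ := fun _ : Fin 3 => ℂ) i).hasFDerivAt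
  fin_cases i
  · have h := ((hp 0).pow 2).mul (hp 1)
    refine h.congr_fderiv ?_
    ext v
    simp
    ring
  · have h := (hp 1).mul (hp 2)
    refine h.congr_fderiv ?_
    ext v
    simp
    ring
  · have h := ((hp 0).pow 4).mul (hp 2)
    refine h.congr_fderiv ?_
    ext v
    simp
    ring

theorem det_eq (z : Fin 3 → ℂ) : (fderiv ℂ ff z).det = 6 * (z 0) ^ 5 * z 1 * z 2 := by
  rw [(ff_hasFDerivAt z).fderiv]
  rw [ContinuousLinearMap.det, ← LinearMap.det_toMatrix', Matrix.det_fin_three]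
  simp [LinearMap.toMatrix'_apply]
  ring

/-- The negation of the preceding statement: For every holomorphic germ f of ℂⁿ fixing 0 that is non-invertible and dominant, the orders of vanishing c(f^k) of its iterates at 0 eventually satisfy a linear recursion with integer coefficients. -/
theorem result :
    ¬ (∀ (n : ℕ) (f : (Fin n → ℂ) → (Fin n → ℂ)),
      AnalyticAt ℂ f 0 → f 0 = 0 →
      (fderiv ℂ f 0).det = 0 →
      (∀ ε : ℝ, 0 < ε → ∃ z : Fin n → ℂ, ‖z‖ < ε ∧ (fderiv ℂ f z).det ≠ 0) →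
      ∃ (d : ℕ) (a : Fin d → ℤ) (K : ℕ), ∀ k : ℕ, K ≤ k →
        ((sInf {m : ℕ | iteratedFDeriv ℂ m (f^[k + d]) 0 ≠ 0} : ℕ) : ℤ) =
          ∑ i : Fin d, a i *
            ((sInf {m : ℕ | iteratedFDeriv ℂ m (f^[k + (i : ℕ)]) 0 ≠ 0} : ℕ) : ℤ)) := by
  intro H
  obtain ⟨d, a, K, h⟩ := H 3 ff (ff_analytic 0) (by funext i; fin_cases i <;> simp [ff])
    (by rw [det_eq]; simp) (by
      intro ε hε
      refine ⟨fun _ => ((ε / 2 : ℝ) : ℂ), ?_, ?_⟩
      · have : ‖(fun _ : Fin 3 => ((ε / 2 : ℝ) : ℂ))‖ ≤ ε / 2 := by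
          rw [pi_norm_le_iff_of_nonneg (by positivity)]
          intro i
          rw [Complex.norm_real, Real.norm_of_nonneg (by positivity)]
        linarith
      · rw [det_eq]
        have : ((ε / 2 : ℝ) : ℂ) ≠ 0 := by
          exact_mod_cast (by positivity : (ε / 2 : ℝ) ≠ 0)
        exact mul_ne_zero (mul_ne_zero (mul_ne_zero (by norm_num) (pow_ne_zero _ this)) this) this)
  refine no_recursion d a K fun k hk => ?_
  have := h k hk
  simp only [order_eq] at this
  exact this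

end Pool.Agent.S06280
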