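import Pool.Statements.S06444
import Pool.Agent.T6.H58.BoxNonA
import Pool.Agent.T6.H58.OnlOne
-- import your own Pool.Agent.* helpers here

set_option autoImplicit false
open MeasureTheory
open scoped ENNReal
open Pool Pool.MP_e081a1_an

namespace Pool.Agent.S06444

/-- The negation of the preceding statement: For every p in [1,∞) other than 2, every bounded geometry metric space with the p-operator norm localization property (ℓ^p-valued L^p, all nonzero locally finite Borel measures) has Yu's property A. -/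
theorem result :
    ¬ (∀ (p : ℝ≥0∞) [Fact (1 ≤ p)], p ≠ ⊤ → p ≠ 2 →
    ∀ (X : Type) [MetricSpace X] [MeasurableSpace X] [BorelSpace X],
      (∀ R : ℝ, 0 < R → ∃ N : ℕ, ∀ x : X,
          (Metric.ball x R).Finite ∧ (Metric.ball x R).ncard ≤ N) →
      (∃ c : ℝ, 0 < c ∧ c ≤ 1 ∧ ∃ f : ℕ → ℕ, Monotone f ∧
        ∀ (ν : Measure X) [IsLocallyFiniteMeasure ν], ν ≠ 0 → ∀ r : ℕ,
          ∀ T : Lp (lp (fun _ : ℕ => ℝ) p) p ν →L[ℝ] Lp (lp (fun _ : ℕ => ℝ) p) p ν,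
            (∀ x y : X, (r : ℝ) < dist x y →
              ∃ U V : Set X, IsOpen U ∧ IsOpen V ∧ x ∈ U ∧ y ∈ V ∧
                ∀ g : Lp (lp (fun _ : ℕ => ℝ) p) p ν,
                  (∀ᵐ z ∂ν, z ∉ U → ⇑g z = 0) → ∀ᵐ z ∂ν, z ∈ V → ⇑(T g) z = 0) →
            ∃ ξ : Lp (lp (fun _ : ℕ => ℝ) p) p ν, ξ ≠ 0 ∧
              (∃ S : Set X, (∀ a ∈ S, ∀ b ∈ S, dist a b ≤ (f r : ℝ)) ∧
                ∀ᵐ z ∂ν, z ∉ S → ⇑ξ z = 0) ∧
              c * ‖T‖ * ‖ξ‖ ≤ ‖T ξ‖) →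
      (∀ R : ℝ, 0 < R → ∀ ε : ℝ, 0 < ε →
        ∃ S : ℝ, ∃ A : X → Set (X × ℕ),
          (∀ x, (A x).Finite) ∧ (∀ x, (x, 0) ∈ A x) ∧
          (∀ x, ∀ w ∈ A x, dist w.1 x ≤ S) ∧
          ∀ x y, dist x y < R →
            ((symmDiff (A x) (A y)).ncard : ℝ) < ε * ((A x ∩ A y).ncard : ℝ))) := by
  intro h
  have h1 := h 1 (by simp) (by norm_num) Pool.Agent.T6.H58.Box.X
    (fun R _ => Pool.Agent.T6.H58.Box.bounded_geometry R) ?_ 2 (by norm_num) (1 / 8) (by norm_num)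
  · obtain ⟨S, A, hfin, h0, hS, hA⟩ := h1
    exact Pool.Agent.T6.H58.Box.not_property_A S A hfin h0 hS hA
  · refine ⟨1 / 2, by norm_num, by norm_num, fun _ => 0, monotone_const, ?_⟩
    intro ν _ hν r T _
    have hnt : Nontrivial (lp (fun _ : ℕ => ℝ) 1) := by
      refine ⟨⟨lp.single 1 0 (1 : ℝ), 0, fun h0 => ?_⟩⟩
      have h2 := congrArg (fun f : lp (fun _ : ℕ => ℝ) 1 => f 0) h0
      simp at h2
    obtain ⟨ξ, hξ, ⟨x, hx⟩, hT⟩ := Pool.Agent.T6.H58.OnlOne.onl_one ν hν T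
    refine ⟨ξ, hξ, ⟨{x}, ?_, hx⟩, hT⟩
    intro a ha b hb
    rw [Set.mem_singleton_iff] at ha hb
    rw [ha, hb, dist_self]
    simp

end Pool.Agent.S06444
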