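import Pool.Statements.S08375
import Pool.Agent.T6.H97.TM.RED
import Pool.Agent.T6.H97.TM.L1
import Pool.Agent.T6.H97.TM.RAM
import Pool.Agent.T6.H97.TM.PHI2
import Pool.Agent.T6.H97.TM.PIV
import Pool.Agent.T6.H97.TM.CHD
import Pool.Agent.T6.H97.TM.HIT
import Pool.Agent.T6.H97.TM.Fin

set_option autoImplicit false
open Pool Pool.MP_41f3d4_co

namespace Pool.Agent.S08375

/-- For every k there are constants c, d such that every finite graph with a tree decomposition whose bags each meet the edges of at most k edges of any induced matching has chromatic number at most c times (clique number)^d. -/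
theorem result :
    ∀ k : ℕ, ∃ c d : ℕ, ∀ (V : Type) [Fintype V] (G : SimpleGraph V),
      (∃ n : ℕ, ∃ T : SimpleGraph (Fin n), ∃ bag : Fin n → Finset V,
        T.IsTree ∧
        (∀ v : V, ∃ i : Fin n, v ∈ bag i) ∧
        (∀ u v : V, G.Adj u v → ∃ i : Fin n, u ∈ bag i ∧ v ∈ bag i) ∧
        (∀ v : V, ∀ i j : Fin n, v ∈ bag i → v ∈ bag j →
          ∃ p : T.Walk i j, ∀ x ∈ p.support, v ∈ bag x) ∧
        (∀ i : Fin n, ∀ S : Finset V,
          (∀ v ∈ S, ∃! u : V, u ∈ S ∧ G.Adj v u) →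
          (∀ v ∈ S, ∃ u ∈ S, G.Adj v u ∧ (v ∈ bag i ∨ u ∈ bag i)) →
          S.card ≤ 2 * k)) →
      G.chromaticNumber ≤ ((c * G.cliqueNum ^ d : ℕ) : ℕ∞) := by
  exact Pool.Agent.T6.H97.TM.fin
    (Pool.Agent.T6.H97.TM.hit Pool.Agent.T6.H97.TM.red Pool.Agent.T6.H97.TM.l1
      Pool.Agent.T6.H97.TM.ram Pool.Agent.T6.H97.TM.phi2 Pool.Agent.T6.H97.TM.piv
      Pool.Agent.T6.H97.TM.chd)

end Pool.Agent.S08375
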