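import Pool.Statements.S09354

set_option autoImplicit false
open Pool Pool.MP_6d0115_co

namespace Pool.Agent.S09354

open Polynomial Finset

/-- The D'Arcais polynomials, by their recursion. -/
noncomputable def D : ℕ → Polynomial ℚ
  | 0 => 1
  | (n + 1) => C (1 / ((n : ℚ) + 1)) * (X * ∑ k : Fin (n + 1),
      ((ArithmeticFunction.sigma 1 ((k : ℕ) + 1) : ℕ) : Polynomial ℚ) * D (n - k))
  termination_by n => n
  decreasing_by omega

lemma D_zero : D 0 = 1 := by rw [D]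

lemma D_succ (n : ℕ) : D (n + 1) = C (1 / ((n : ℚ) + 1)) * (X * ∑ k ∈ range (n + 1),
      ((ArithmeticFunction.sigma 1 (k + 1) : ℕ) : Polynomial ℚ) * D (n - k)) := by
  rw [D, Finset.sum_range]

lemma D_rec (n : ℕ) (hn : 1 ≤ n) : (n : Polynomial ℚ) * D n =
    X * ∑ k ∈ Icc 1 n, ((ArithmeticFunction.sigma 1 k : ℕ) : Polynomial ℚ) * D (n - k) := by
  obtain ⟨m, rfl⟩ : ∃ m, n = m + 1 := ⟨n - 1, by omega⟩
  rw [D_succ, ← mul_assoc]
  have h1 : (((m + 1 : ℕ) : Polynomial ℚ)) * C (1 / ((m : ℚ) + 1)) = 1 := by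
    have : (((m + 1 : ℕ) : Polynomial ℚ)) = C ((m : ℚ) + 1) := by
      simp
    rw [this, ← C_mul]
    have h2 : ((m : ℚ) + 1) * (1 / ((m : ℚ) + 1)) = 1 := by
      field_simp
    rw [h2, C_1]
  rw [h1, one_mul]
  congr 1
  have : Icc 1 (m + 1) = Ico 1 (m + 2) := by
    ext x
    simp only [mem_Icc, mem_Ico]
    omega
  rw [this, Finset.sum_Ico_eq_sum_range]
  have e2 : m + 2 - 1 = m + 1 := by omega
  rw [e2]
  apply Finset.sum_congr rfl
  intro k hk
  have e3 : m + 1 - (1 + k) = m - k := by omega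
  rw [e3, add_comm 1 k]

/-- Coefficient recursion. -/
lemma coeff_rec (P : ℕ → Polynomial ℚ)
    (h : ∀ n : ℕ, 1 ≤ n → (n : Polynomial ℚ) * P n =
      X * ∑ k ∈ Icc 1 n, ((ArithmeticFunction.sigma 1 k : ℕ) : Polynomial ℚ) * P (n - k))
    (n : ℕ) (hn : 1 ≤ n) (j : ℕ) :
    (n : ℚ) * (P n).coeff (j + 1) =
      ∑ k ∈ Icc 1 n, ((ArithmeticFunction.sigma 1 k : ℕ) : ℚ) * (P (n - k)).coeff j := by
  have := congrArg (fun p => p.coeff (j + 1)) (h n hn)
  simp only [coeff_X_mul, finsetSum_coeff] at this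
  have e1 : ∀ (m : ℕ) (p : Polynomial ℚ) (i : ℕ), ((m : Polynomial ℚ) * p).coeff i =
      (m : ℚ) * p.coeff i := by
    intro m p i
    rw [← C_eq_natCast, coeff_C_mul]
  simp only [e1] at this
  exact this

lemma coeff_zero' (P : ℕ → Polynomial ℚ)
    (h : ∀ n : ℕ, 1 ≤ n → (n : Polynomial ℚ) * P n =
      X * ∑ k ∈ Icc 1 n, ((ArithmeticFunction.sigma 1 k : ℕ) : Polynomial ℚ) * P (n - k))
    (n : ℕ) (hn : 1 ≤ n) : (P n).coeff 0 = 0 := by
  have := congrArg (fun p => p.coeff 0) (h n hn)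
  simp only [mul_coeff_zero, coeff_X_zero, zero_mul] at this
  rw [← C_eq_natCast, coeff_C_zero] at this
  have hn' : (n : ℚ) ≠ 0 := by positivity
  exact (mul_eq_zero.mp this).resolve_left hn'

/-- The normalised divisor sum `σ(n)/n`. -/
noncomputable def f (n : ℕ) : ℝ := ((ArithmeticFunction.sigma 1 n : ℕ) : ℝ) / (n : ℝ)

lemma f_eq (n : ℕ) (hn : 1 ≤ n) : f n = ∑ d ∈ n.divisors, (1 : ℝ) / d := by
  unfold f
  rw [ArithmeticFunction.sigma_one_apply, ← Nat.sum_div_divisors n (fun d => (1 : ℝ) / d)]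
  push_cast
  rw [Finset.sum_div]
  apply Finset.sum_congr rfl
  intro d hd
  have hdn : d ∣ n := Nat.dvd_of_mem_divisors hd
  have hn0 : (n : ℝ) ≠ 0 := by positivity
  have hd0 : (d : ℝ) ≠ 0 := by
    have : 0 < d := Nat.pos_of_mem_divisors hd
    positivity
  rw [Nat.cast_div hdn hd0]
  field_simp

lemma one_le_f (n : ℕ) (hn : 1 ≤ n) : 1 ≤ f n := by
  rw [f_eq n hn]
  have h1 : (1 : ℕ) ∈ n.divisors := by simp; omega
  have := Finset.single_le_sum (f := fun d : ℕ => (1 : ℝ) / d) (fun i _ => by positivity) h1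
  simpa using this

lemma f_fac_ge (N : ℕ) : ∑ i ∈ range N, (1 : ℝ) / ((i : ℝ) + 1) ≤ f N.factorial := by
  rw [f_eq _ (Nat.factorial_pos N)]
  have hsub : (Icc 1 N) ⊆ N.factorial.divisors := by
    intro x hx
    simp only [mem_Icc] at hx
    rw [Nat.mem_divisors]
    exact ⟨Nat.dvd_factorial (by omega) (by omega), Nat.factorial_ne_zero N⟩
  have hI : Icc 1 N = Ico 1 (N + 1) := by
    ext x; simp only [mem_Icc, mem_Ico]; omega
  calc ∑ i ∈ range N, (1 : ℝ) / ((i : ℝ) + 1)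
      = ∑ x ∈ Icc 1 N, (1 : ℝ) / (x : ℝ) := by
        rw [hI, Finset.sum_Ico_eq_sum_range]
        apply Finset.sum_congr rfl
        intro i _
        push_cast
        rw [add_comm]
    _ ≤ _ := Finset.sum_le_sum_of_subset_of_nonneg hsub (fun i _ _ => by positivity)

/-- the constant `ζ(3/2)` -/
noncomputable def Z : ℝ := ∑' d : ℕ, 1 / ((d : ℝ) ^ (3 / 2 : ℝ))

lemma summ : Summable (fun d : ℕ => 1 / ((d : ℝ) ^ (3 / 2 : ℝ))) :=
  Real.summable_one_div_nat_rpow.mpr (by norm_num)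

lemma sum_le_Z (s : Finset ℕ) : ∑ d ∈ s, 1 / ((d : ℝ) ^ (3 / 2 : ℝ)) ≤ Z :=
  Summable.sum_le_tsum s (fun i _ => by positivity) summ

lemma Z_nonneg : 0 ≤ Z := tsum_nonneg (fun i => by positivity)

lemma f_sq_le (j : ℕ) (hj : 1 ≤ j) :
    f j ^ 2 ≤ Z * ∑ d ∈ j.divisors, 1 / ((d : ℝ) ^ (1 / 2 : ℝ)) := by
  rw [f_eq j hj]
  have key : ∑ d ∈ j.divisors, (1 : ℝ) / d =
      ∑ d ∈ j.divisors, (1 / ((d : ℝ) ^ (3 / 4 : ℝ))) * (1 / ((d : ℝ) ^ (1 / 4 : ℝ))) := by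
    apply Finset.sum_congr rfl
    intro d hd
    have : 0 < d := Nat.pos_of_mem_divisors hd
    have hd0 : (0 : ℝ) < d := by positivity
    rw [div_mul_div_comm, ← Real.rpow_add hd0]
    norm_num
  rw [key]
  refine (Finset.sum_mul_sq_le_sq_mul_sq _ _ _).trans ?_
  have e1 : ∑ d ∈ j.divisors, (1 / ((d : ℝ) ^ (3 / 4 : ℝ))) ^ 2 ≤ Z := by
    refine le_trans (le_of_eq ?_) (sum_le_Z j.divisors)
    apply Finset.sum_congr rfl
    intro d hd
    have : 0 < d := Nat.pos_of_mem_divisors hd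
    have hd0 : (0 : ℝ) < d := by positivity
    rw [div_pow, one_pow, ← Real.rpow_natCast, ← Real.rpow_mul hd0.le]
    norm_num
  have e2 : ∑ d ∈ j.divisors, (1 / ((d : ℝ) ^ (1 / 4 : ℝ))) ^ 2 =
      ∑ d ∈ j.divisors, 1 / ((d : ℝ) ^ (1 / 2 : ℝ)) := by
    apply Finset.sum_congr rfl
    intro d hd
    have : 0 < d := Nat.pos_of_mem_divisors hd
    have hd0 : (0 : ℝ) < d := by positivity
    rw [div_pow, one_pow, ← Real.rpow_natCast, ← Real.rpow_mul hd0.le]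
    norm_num
  rw [e2]
  exact mul_le_mul_of_nonneg_right e1 (Finset.sum_nonneg (fun i _ => by positivity))

lemma sum_f_sq_le (n : ℕ) : ∑ j ∈ Icc 1 n, f j ^ 2 ≤ Z ^ 2 * n := by
  have h1 : ∑ j ∈ Icc 1 n, f j ^ 2 ≤
      ∑ j ∈ Icc 1 n, Z * ∑ d ∈ j.divisors, 1 / ((d : ℝ) ^ (1 / 2 : ℝ)) :=
    Finset.sum_le_sum (fun j hj => f_sq_le j (Finset.mem_Icc.mp hj).1)
  refine h1.trans ?_
  rw [← Finset.mul_sum, pow_two, mul_assoc]
  refine mul_le_mul_of_nonneg_left ?_ Z_nonneg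
  have h2 : ∑ j ∈ Icc 1 n, ∑ d ∈ j.divisors, 1 / ((d : ℝ) ^ (1 / 2 : ℝ)) =
      ∑ d ∈ Icc 1 n, ∑ j ∈ (Icc 1 n).filter (fun j => d ∣ j), 1 / ((d : ℝ) ^ (1 / 2 : ℝ)) := by
    have h3 : ∀ j ∈ Icc 1 n, ∑ d ∈ j.divisors, 1 / ((d : ℝ) ^ (1 / 2 : ℝ)) =
        ∑ d ∈ Icc 1 n, if d ∣ j then 1 / ((d : ℝ) ^ (1 / 2 : ℝ)) else 0 := by
      intro j hj
      rw [← Finset.sum_filter]
      apply Finset.sum_congr _ (fun _ _ => rfl)
      ext d
      simp only [Nat.mem_divisors, mem_filter, mem_Icc] at hj ⊢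
      constructor
      · rintro ⟨hd, hj0⟩
        have := Nat.le_of_dvd (by omega) hd
        have := Nat.pos_of_dvd_of_pos hd (by omega)
        exact ⟨⟨by omega, by omega⟩, hd⟩
      · rintro ⟨_, hd⟩
        exact ⟨hd, by omega⟩
    rw [Finset.sum_congr rfl h3, Finset.sum_comm]
    apply Finset.sum_congr rfl
    intro d _
    rw [Finset.sum_filter]
  rw [h2]
  have h4 : ∀ d ∈ Icc 1 n, ∑ j ∈ (Icc 1 n).filter (fun j => d ∣ j), 1 / ((d : ℝ) ^ (1 / 2 : ℝ)) ≤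
      (1 / ((d : ℝ) ^ (3 / 2 : ℝ))) * n := by
    intro d hd
    have hd1 : 1 ≤ d := (Finset.mem_Icc.mp hd).1
    have hd0 : (0 : ℝ) < d := by positivity
    rw [Finset.sum_const, nsmul_eq_mul]
    have hcard : ((Icc 1 n).filter (fun j => d ∣ j)).card = n / d := by
      have : Icc 1 n = Ioc 0 n := by ext; simp [Nat.succ_le_iff]
      rw [this]
      exact Nat.Ioc_filter_dvd_card_eq_div n d
    rw [hcard]
    have h5 : ((n / d : ℕ) : ℝ) ≤ (n : ℝ) / d := Nat.cast_div_le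
    have h6 : (d : ℝ) ^ (3 / 2 : ℝ) = d * (d : ℝ) ^ (1 / 2 : ℝ) := by
      rw [show (3 / 2 : ℝ) = 1 + 1 / 2 by norm_num, Real.rpow_add hd0, Real.rpow_one]
    rw [h6]
    have h7 : (0 : ℝ) < (d : ℝ) ^ (1 / 2 : ℝ) := by positivity
    calc ((n / d : ℕ) : ℝ) * (1 / ((d : ℝ) ^ (1 / 2 : ℝ)))
        ≤ ((n : ℝ) / d) * (1 / ((d : ℝ) ^ (1 / 2 : ℝ))) :=
          mul_le_mul_of_nonneg_right h5 (by positivity)
      _ = 1 / (d * (d : ℝ) ^ (1 / 2 : ℝ)) * n := by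
          field_simp
  refine (Finset.sum_le_sum h4).trans ?_
  rw [← Finset.sum_mul]
  exact mul_le_mul_of_nonneg_right (sum_le_Z _) (by positivity)

/-- first coefficients of the D'Arcais polynomials -/
noncomputable def a (n j : ℕ) : ℝ := (((D n).coeff j : ℚ) : ℝ)

lemma a_rec (n : ℕ) (hn : 1 ≤ n) (j : ℕ) : (n : ℝ) * a n (j + 1) =
    ∑ k ∈ Icc 1 n, ((ArithmeticFunction.sigma 1 k : ℕ) : ℝ) * a (n - k) j := by
  have := congrArg (fun q : ℚ => (q : ℝ)) (coeff_rec D D_rec n hn j)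
  push_cast at this
  exact this

lemma a_zero (n : ℕ) : a n 0 = if n = 0 then 1 else 0 := by
  unfold a
  split_ifs with h
  · subst h; simp [D_zero]
  · rw [coeff_zero' D D_rec n (by omega)]; simp

lemma a_one (n : ℕ) : a n 1 = f n := by
  rcases Nat.eq_zero_or_pos n with h | h
  · subst h
    simp only [a, D_zero, f]
    simp [coeff_one]
  · have h1 := a_rec n h 0
    have h2 : ∑ k ∈ Icc 1 n, ((ArithmeticFunction.sigma 1 k : ℕ) : ℝ) * a (n - k) 0 =
        ((ArithmeticFunction.sigma 1 n : ℕ) : ℝ) := by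
      rw [Finset.sum_eq_single_of_mem n (by simp; omega)]
      · rw [a_zero]; simp
      · intro b hb hbn
        simp only [mem_Icc] at hb
        rw [a_zero, if_neg (by omega), mul_zero]
    rw [h2] at h1
    have hn : (n : ℝ) ≠ 0 := by positivity
    unfold f
    field_simp
    linarith [h1]

lemma sigma_eq (k : ℕ) (hk : 1 ≤ k) : ((ArithmeticFunction.sigma 1 k : ℕ) : ℝ) = k * f k := by
  unfold f
  have : (k : ℝ) ≠ 0 := by positivity
  field_simp

lemma f_nonneg (n : ℕ) : 0 ≤ f n := by unfold f; positivity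

lemma f_zero : f 0 = 0 := by unfold f; simp

lemma a_two_le (n : ℕ) (hn : 1 ≤ n) : a n 2 ≤ Z ^ 2 * n := by
  have h1 := a_rec n hn 1
  have h2 : ∑ k ∈ Icc 1 n, ((ArithmeticFunction.sigma 1 k : ℕ) : ℝ) * a (n - k) 1 ≤
      ∑ k ∈ Icc 1 n, (n : ℝ) * ((f k ^ 2 + f (n - k) ^ 2) / 2) := by
    apply Finset.sum_le_sum
    intro k hk
    simp only [mem_Icc] at hk
    rw [a_one, sigma_eq k hk.1, mul_assoc]
    have hkn : (k : ℝ) ≤ n := by exact_mod_cast hk.2
    have h3 : f k * f (n - k) ≤ (f k ^ 2 + f (n - k) ^ 2) / 2 := by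
      nlinarith [sq_nonneg (f k - f (n - k))]
    have h4 : 0 ≤ f k * f (n - k) := mul_nonneg (f_nonneg _) (f_nonneg _)
    calc (k : ℝ) * (f k * f (n - k)) ≤ n * (f k * f (n - k)) :=
          mul_le_mul_of_nonneg_right hkn h4
      _ ≤ _ := mul_le_mul_of_nonneg_left h3 (by positivity)
  have h5 : ∑ k ∈ Icc 1 n, f (n - k) ^ 2 ≤ ∑ k ∈ Icc 1 n, f k ^ 2 := by
    have hI : Icc 1 n = Ico 1 (n + 1) := by
      ext x; simp only [mem_Icc, mem_Ico]; omega
    have e1 : ∑ k ∈ Icc 1 n, f (n - k) ^ 2 = ∑ k ∈ range n, f k ^ 2 := by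
      rw [hI, Finset.sum_Ico_eq_sum_range, ← Finset.sum_range_reflect]
      apply Finset.sum_congr (by simp)
      intro i hi
      simp only [mem_range] at hi
      congr 2
      omega
    have e2 : ∑ k ∈ range (n + 1), f k ^ 2 = ∑ k ∈ Icc 1 n, f k ^ 2 := by
      rw [hI, Finset.sum_Ico_eq_sum_range, Finset.sum_range_succ']
      simp only [f_zero]
      simp [add_comm]
    rw [e1, ← e2, Finset.sum_range_succ]
    nlinarith [sq_nonneg (f n)]
  have h6 : ∑ k ∈ Icc 1 n, (n : ℝ) * ((f k ^ 2 + f (n - k) ^ 2) / 2) ≤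
      n * ∑ k ∈ Icc 1 n, f k ^ 2 := by
    rw [← Finset.mul_sum]
    apply mul_le_mul_of_nonneg_left _ (by positivity)
    rw [← Finset.sum_div, Finset.sum_add_distrib]
    linarith
  have h7 : (n : ℝ) * a n 2 ≤ n * (Z ^ 2 * n) := by
    calc (n : ℝ) * a n 2 = _ := h1
      _ ≤ _ := h2
      _ ≤ _ := h6
      _ ≤ _ := mul_le_mul_of_nonneg_left (sum_f_sq_le n) (by positivity)
  have hn0 : (0 : ℝ) < n := by positivity
  exact le_of_mul_le_mul_left h7 hn0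

lemma sum_id (n : ℕ) : ∑ k ∈ Icc 1 n, ((k : ℝ)) = n * (n + 1) / 2 := by
  induction n with
  | zero => simp
  | succ m ih =>
    rw [Finset.sum_Icc_succ_top (by omega), ih]
    push_cast; ring

lemma sum_sq (n : ℕ) : ∑ k ∈ Icc 1 n, ((k : ℝ)) ^ 2 = n * (n + 1) * (2 * n + 1) / 6 := by
  induction n with
  | zero => simp
  | succ m ih =>
    rw [Finset.sum_Icc_succ_top (by omega), ih]
    push_cast; ring

lemma a_two_ge (n : ℕ) : ((n : ℝ) - 1) / 2 ≤ a n 2 := by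
  rcases Nat.eq_zero_or_pos n with h | h
  · subst h
    simp only [a, D_zero]
    simp [coeff_one]
    norm_num
  · have h1 := a_rec n h 1
    obtain ⟨m, rfl⟩ : ∃ m, n = m + 1 := ⟨n - 1, by omega⟩
    rw [Finset.sum_Icc_succ_top (by omega)] at h1
    have h0 : a (m + 1 - (m + 1)) 1 = 0 := by
      rw [a_one]; simp [f_zero]
    rw [h0, mul_zero, add_zero] at h1
    have h2 : ∑ k ∈ Icc 1 m, (k : ℝ) ≤
        ∑ k ∈ Icc 1 m, ((ArithmeticFunction.sigma 1 k : ℕ) : ℝ) * a (m + 1 - k) 1 := by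
      apply Finset.sum_le_sum
      intro k hk
      simp only [mem_Icc] at hk
      rw [a_one, sigma_eq k hk.1]
      have h3 := one_le_f k hk.1
      have h4 := one_le_f (m + 1 - k) (by omega)
      have hk0 : (0 : ℝ) ≤ k := by positivity
      calc (k : ℝ) = k * 1 * 1 := by ring
        _ ≤ k * f k * f (m + 1 - k) := by
          apply mul_le_mul _ h4 (by norm_num) (by positivity)
          exact mul_le_mul_of_nonneg_left h3 hk0
    rw [sum_id] at h2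
    have hn0 : (0 : ℝ) < ((m + 1 : ℕ) : ℝ) := by positivity
    apply le_of_mul_le_mul_left _ hn0
    rw [h1]
    refine le_trans (le_of_eq ?_) h2
    push_cast
    ring

lemma a_three_ge (n : ℕ) (hn : 1 ≤ n) : ((n : ℝ) - 1) * ((n : ℝ) - 2) / 12 ≤ a n 3 := by
  have h1 := a_rec n hn 2
  obtain ⟨m, rfl⟩ : ∃ m, n = m + 1 := ⟨n - 1, by omega⟩
  rw [Finset.sum_Icc_succ_top (by omega)] at h1
  have h0 : a (m + 1 - (m + 1)) 2 = 0 := by
    simp only [Nat.sub_self, a, D_zero]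
    simp [coeff_one]
  rw [h0, mul_zero, add_zero] at h1
  have h2 : ∑ k ∈ Icc 1 m, (k : ℝ) * (((m : ℝ) - k) / 2) ≤
      ∑ k ∈ Icc 1 m, ((ArithmeticFunction.sigma 1 k : ℕ) : ℝ) * a (m + 1 - k) 2 := by
    apply Finset.sum_le_sum
    intro k hk
    simp only [mem_Icc] at hk
    rw [sigma_eq k hk.1]
    have h3 := one_le_f k hk.1
    have h4 := a_two_ge (m + 1 - k)
    have hk0 : (0 : ℝ) ≤ k := by positivity
    have hkm : (k : ℝ) ≤ m := by exact_mod_cast hk.2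
    have h5 : (((m + 1 - k : ℕ) : ℝ) - 1) / 2 = ((m : ℝ) - k) / 2 := by
      rw [Nat.cast_sub (by omega)]
      push_cast; ring
    rw [h5] at h4
    have h6 : 0 ≤ ((m : ℝ) - k) / 2 := by linarith
    apply mul_le_mul _ h4 h6 (by positivity)
    nlinarith
  have h3 : ∑ k ∈ Icc 1 m, (k : ℝ) * (((m : ℝ) - k) / 2) =
      ((m : ℝ) * ∑ k ∈ Icc 1 m, (k : ℝ) - ∑ k ∈ Icc 1 m, (k : ℝ) ^ 2) / 2 := by
    rw [Finset.mul_sum, ← Finset.sum_sub_distrib, Finset.sum_div]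
    apply Finset.sum_congr rfl
    intro k _
    ring
  rw [h3, sum_id, sum_sq] at h2
  have hn0 : (0 : ℝ) < ((m + 1 : ℕ) : ℝ) := by positivity
  apply le_of_mul_le_mul_left _ hn0
  rw [h1]
  refine le_trans (le_of_eq ?_) h2
  push_cast
  ring

/-- The negation of the preceding statement: If P_0=1 and n·P_n = x·Σ_{k=1}^n σ(k)P_{n-k} (the D'Arcais polynomials), then for all n and k≥1 the coefficients of P_n satisfy a_{k-1}a_{k+1} ≤ a_k². -/
theorem result :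
    ¬ (∀ P : ℕ → Polynomial ℚ, P 0 = 1 →
      (∀ n : ℕ, 1 ≤ n →
        (n : Polynomial ℚ) * P n =
          Polynomial.X * ∑ k ∈ Finset.Icc 1 n,
            ((ArithmeticFunction.sigma 1 k : ℕ) : Polynomial ℚ) * P (n - k)) →
      ∀ n k : ℕ, 1 ≤ k →
        (P n).coeff (k - 1) * (P n).coeff (k + 1) ≤ (P n).coeff k ^ 2) := by
  intro hall
  have hD := hall D D_zero D_rec
  -- the inequality at `k = 2`, over the reals
  have h2 : ∀ n : ℕ, a n 1 * a n 3 ≤ a n 2 ^ 2 := by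
    intro n
    have := hD n 2 (by norm_num)
    simp only [a]
    exact_mod_cast this
  -- `σ(n)/n` is bounded
  have hb : ∀ n : ℕ, 4 ≤ n → f n ≤ 48 * Z ^ 4 := by
    intro n hn
    have h3 := h2 n
    rw [a_one] at h3
    have h4 := a_three_ge n (by omega)
    have h5 := a_two_le n (by omega)
    have hn4 : (4 : ℝ) ≤ n := by exact_mod_cast hn
    have h6 : (0 : ℝ) ≤ a n 2 := by
      have := a_two_ge n
      linarith
    have h7 : a n 2 ^ 2 ≤ (Z ^ 2 * n) ^ 2 := pow_le_pow_left₀ h6 h5 2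
    have h8 : (n : ℝ) ^ 2 / 4 ≤ ((n : ℝ) - 1) * ((n : ℝ) - 2) := by nlinarith
    have h9 : (n : ℝ) ^ 2 / 48 ≤ a n 3 := by linarith
    have h10 : f n * ((n : ℝ) ^ 2 / 48) ≤ f n * a n 3 :=
      mul_le_mul_of_nonneg_left h9 (f_nonneg n)
    have h11 : f n * ((n : ℝ) ^ 2 / 48) ≤ (Z ^ 2 * n) ^ 2 := by linarith
    have hn2 : (0 : ℝ) < (n : ℝ) ^ 2 := by positivity
    have h12 : f n * (n : ℝ) ^ 2 ≤ (48 * Z ^ 4) * (n : ℝ) ^ 2 := by nlinarith
    exact le_of_mul_le_mul_right h12 hn2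
  -- but harmonic sums are unbounded
  have hdiv := Real.tendsto_sum_range_one_div_nat_succ_atTop
  have hev := (Filter.tendsto_atTop.mp hdiv (48 * Z ^ 4 + 1)).and (Filter.eventually_ge_atTop 4)
  obtain ⟨N, hN1, hN2⟩ := hev.exists
  have h3 := f_fac_ge N
  have h4 := hb N.factorial (le_trans hN2 (Nat.self_le_factorial N))
  linarith

end Pool.Agent.S09354
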