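import Pool.Statements.S12391
import Pool.Agent.T6.H81.Maehara10

set_option autoImplicit false
open Pool Pool.MP_f35a22_co

namespace Pool.Agent.S12391

open Module
open scoped RealInnerProductSpace

/-- Equidistance from two points is an orthogonality relation. -/
lemma orth_of_dist (p q a b : EuclideanSpace ℝ (Fin 3)) (h1 : dist p a = 1) (h2 : dist q a = 1)
    (h3 : dist p b = 1) (h4 : dist q b = 1) : ⟪p - q, b - a⟫ = 0 := by
  rw [dist_eq_norm] at h1 h2 h3 h4
  have e1 : ‖p - a‖ ^ 2 = 1 := by rw [h1]; norm_num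
  have e2 : ‖q - a‖ ^ 2 = 1 := by rw [h2]; norm_num
  have e3 : ‖p - b‖ ^ 2 = 1 := by rw [h3]; norm_num
  have e4 : ‖q - b‖ ^ 2 = 1 := by rw [h4]; norm_num
  rw [@norm_sub_sq_real] at e1 e2 e3 e4
  rw [inner_sub_left, inner_sub_right, inner_sub_right]
  linarith

lemma dist_of_orth (p q a b : EuclideanSpace ℝ (Fin 3)) (h1 : dist p a = 1) (h2 : dist q a = 1)
    (h4 : dist q b = 1) (h : ⟪p - q, b - a⟫ = 0) : dist p b = 1 := by
  rw [dist_eq_norm] at h1 h2 h4 ⊢
  have e1 : ‖p - a‖ ^ 2 = 1 := by rw [h1]; norm_num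
  have e2 : ‖q - a‖ ^ 2 = 1 := by rw [h2]; norm_num
  have e4 : ‖q - b‖ ^ 2 = 1 := by rw [h4]; norm_num
  have e3 : ‖p - b‖ ^ 2 = 1 := by
    rw [@norm_sub_sq_real] at e1 e2 e4 ⊢
    rw [inner_sub_left, inner_sub_right, inner_sub_right] at h
    linarith
  have hn : 0 ≤ ‖p - b‖ := norm_nonneg _
  nlinarith

/-- Three distinct points on a unit sphere are not collinear. -/
lemma li_of_sphere (p a b c : EuclideanSpace ℝ (Fin 3)) (hab : a ≠ b) (hac : a ≠ c) (hbc : b ≠ c)
    (ha : dist p a = 1) (hb : dist p b = 1) (hc : dist p c = 1) :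
    LinearIndependent ℝ ![b - a, c - a] := by
  rw [LinearIndependent.pair_iff]
  intro s t hst
  have e : ∀ x : EuclideanSpace ℝ (Fin 3), dist p x = 1 →
      2 * ⟪x - a, a - p⟫ = -‖x - a‖ ^ 2 := by
    intro x hx
    rw [dist_comm, dist_eq_norm] at hx ha
    have e1 : ‖x - p‖ ^ 2 = 1 := by rw [hx]; norm_num
    have e2 : ‖a - p‖ ^ 2 = 1 := by rw [ha]; norm_num
    have e3 : x - p = (x - a) + (a - p) := by abel
    rw [e3, @norm_add_sq_real, e2] at e1
    linarith
  have eb := e b hb
  have ec := e c hc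
  have hu : 0 < ‖b - a‖ ^ 2 := by
    have : b - a ≠ 0 := sub_ne_zero.mpr (Ne.symm hab)
    positivity
  have hv : 0 < ‖c - a‖ ^ 2 := by
    have : c - a ≠ 0 := sub_ne_zero.mpr (Ne.symm hac)
    positivity
  have h1 : s * ⟪b - a, a - p⟫ + t * ⟪c - a, a - p⟫ = 0 := by
    have := congrArg (fun z => ⟪z, a - p⟫) hst
    simpa [inner_add_left, inner_smul_left] using this
  have h2 : s * ‖b - a‖ ^ 2 + t * ‖c - a‖ ^ 2 = 0 := by
    linear_combination (-2) * h1 + s * eb + t * ec
  have h3 : t • (c - a) = -(s • (b - a)) := by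
    rw [eq_neg_iff_add_eq_zero, add_comm]; exact hst
  have h4 : t ^ 2 * ‖c - a‖ ^ 2 = s ^ 2 * ‖b - a‖ ^ 2 := by
    have := congrArg (fun z => ‖z‖ ^ 2) h3
    simpa [norm_smul, mul_pow] using this
  have h5 : s * (s + t) = 0 := by
    have : ‖b - a‖ ^ 2 * (s * (s + t)) = 0 := by linear_combination t * h2 - h4
    rcases mul_eq_zero.mp this with h | h
    · exact absurd h hu.ne'
    · exact h
  rcases mul_eq_zero.mp h5 with h | h
  · subst h
    refine ⟨rfl, ?_⟩
    have : t * ‖c - a‖ ^ 2 = 0 := by linarith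
    rcases mul_eq_zero.mp this with h | h
    · exact h
    · exact absurd h hv.ne'
  · have hs : s = -t := by linarith
    subst hs
    by_cases ht : t = 0
    · subst ht; simp
    · exfalso
      apply hbc
      have h6 : t • (c - a) = t • (b - a) := by rw [h3]; simp
      have h7 := smul_right_injective _ ht h6
      have : c = b := by
        have := congrArg (fun z => z + a) h7
        simpa using this
      exact this.symm

/-- Uniqueness of the common point when the four centres are not coplanar. -/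
lemma unique_of_notMem (a b c d p q : EuclideanSpace ℝ (Fin 3))
    (hli : LinearIndependent ℝ ![b - a, c - a])
    (hd : d - a ∉ Submodule.span ℝ (Set.range ![b - a, c - a]))
    (pa : dist p a = 1) (pb : dist p b = 1) (pc : dist p c = 1) (pd : dist p d = 1)
    (qa : dist q a = 1) (qb : dist q b = 1) (qc : dist q c = 1) (qd : dist q d = 1) : p = q := by
  by_contra hne
  have hδ : p - q ≠ 0 := sub_ne_zero.mpr hne
  have o1 := orth_of_dist p q a b pa qa pb qb
  have o2 := orth_of_dist p q a c pa qa pc qc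
  have o3 := orth_of_dist p q a d pa qa pd qd
  have hle : Submodule.span ℝ (Set.range ![b - a, c - a]) ≤ (Submodule.span ℝ {p - q})ᗮ := by
    rw [Submodule.span_le]
    rintro x ⟨i, rfl⟩
    rw [SetLike.mem_coe, Submodule.mem_orthogonal_singleton_iff_inner_right]
    fin_cases i
    · exact o1
    · exact o2
  have hf1 : finrank ℝ (Submodule.span ℝ (Set.range ![b - a, c - a])) = 2 := by
    rw [finrank_span_eq_card hli]; simp
  have : Fact (finrank ℝ (EuclideanSpace ℝ (Fin 3)) = 2 + 1) := ⟨by simp⟩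
  have hf2 : finrank ℝ (Submodule.span ℝ {p - q})ᗮ = 2 :=
    Submodule.finrank_orthogonal_span_singleton hδ
  have heq := Submodule.eq_of_le_of_finrank_eq hle (by rw [hf1, hf2])
  apply hd
  rw [heq, Submodule.mem_orthogonal_singleton_iff_inner_right]
  exact o3

/-- For any set of at least 5 distinct centers in 3-space, if every 4 of the unit spheres around them share a common point, then one point lies on all of these unit spheres. -/
theorem result :
    ∀ S : Set (EuclideanSpace ℝ (Fin 3)),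
      5 ≤ S.encard →
      (∀ T : Set (EuclideanSpace ℝ (Fin 3)), T ⊆ S → T.encard = 4 →
        ∃ p : EuclideanSpace ℝ (Fin 3), ∀ c ∈ T, p ∈ Metric.sphere c 1) →
      ∃ p : EuclideanSpace ℝ (Fin 3), ∀ c ∈ S, p ∈ Metric.sphere c 1 := by
  intro S hS hT
  -- the four-point hypothesis in explicit form
  have H4 : ∀ a ∈ S, ∀ b ∈ S, ∀ c ∈ S, ∀ d ∈ S, a ≠ b → a ≠ c → a ≠ d → b ≠ c → b ≠ d → c ≠ d →
      ∃ p : EuclideanSpace ℝ (Fin 3), dist p a = 1 ∧ dist p b = 1 ∧ dist p c = 1 ∧ dist p d = 1 := by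
    intro a ha b hb c hc d hd hab hac had hbc hbd hcd
    obtain ⟨p, hp⟩ := hT {a, b, c, d} (by
      intro x hx
      simp only [Set.mem_insert_iff, Set.mem_singleton_iff] at hx
      rcases hx with rfl | rfl | rfl | rfl <;> assumption) (by
      rw [Set.encard_insert_of_notMem (by simp [hab, hac, had]),
        Set.encard_insert_of_notMem (by simp [hbc, hbd]),
        Set.encard_insert_of_notMem (by simp [hcd]), Set.encard_singleton]
      norm_num)
    exact ⟨p, Metric.mem_sphere.mp (hp a (by simp)), Metric.mem_sphere.mp (hp b (by simp)),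
      Metric.mem_sphere.mp (hp c (by simp)), Metric.mem_sphere.mp (hp d (by simp))⟩
  -- three distinct points and a fourth one
  obtain ⟨T3, hT3, hT3c⟩ := Set.exists_subset_encard_eq (s := S) (k := 3)
    (le_trans (by norm_num) hS)
  obtain ⟨a, b, c, hab, hac, hbc, rfl⟩ := Set.encard_eq_three.mp hT3c
  have ha : a ∈ S := hT3 (by simp)
  have hb : b ∈ S := hT3 (by simp)
  have hc : c ∈ S := hT3 (by simp)
  obtain ⟨d0, hd0, hd0n⟩ : ∃ d ∈ S, d ∉ ({a, b, c} : Set (EuclideanSpace ℝ (Fin 3))) := by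
    by_contra hcon
    push Not at hcon
    have h1 : S.encard ≤ 3 := by
      rw [← hT3c]; exact Set.encard_le_encard (fun x hx => hcon x hx)
    have h2 : (5 : ℕ∞) ≤ 3 := le_trans hS h1
    exact absurd h2 (by norm_num)
  simp only [Set.mem_insert_iff, Set.mem_singleton_iff, not_or] at hd0n
  obtain ⟨hd0a, hd0b, hd0c⟩ := hd0n
  obtain ⟨p0, p0a, p0b, p0c, p0d⟩ := H4 a ha b hb c hc d0 hd0 hab hac (Ne.symm hd0a) hbc
    (Ne.symm hd0b) (Ne.symm hd0c)
  have hli := li_of_sphere p0 a b c hab hac hbc p0a p0b p0c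
  by_cases hcop : ∀ x ∈ S, x - a ∈ Submodule.span ℝ (Set.range ![b - a, c - a])
  · -- coplanar case
    refine ⟨p0, fun x hx => ?_⟩
    rw [Metric.mem_sphere]
    by_cases hxa : x = a
    · rw [hxa]; exact p0a
    by_cases hxb : x = b
    · rw [hxb]; exact p0b
    by_cases hxc : x = c
    · rw [hxc]; exact p0c
    obtain ⟨q, qa, qb, qc, qx⟩ := H4 a ha b hb c hc x hx hab hac (Ne.symm hxa) hbc
      (Ne.symm hxb) (Ne.symm hxc)
    have o1 := orth_of_dist p0 q a b p0a qa p0b qb
    have o2 := orth_of_dist p0 q a c p0a qa p0c qc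
    have hle : Submodule.span ℝ (Set.range ![b - a, c - a]) ≤
        (Submodule.span ℝ {p0 - q})ᗮ := by
      rw [Submodule.span_le]
      rintro y ⟨i, rfl⟩
      rw [SetLike.mem_coe, Submodule.mem_orthogonal_singleton_iff_inner_right]
      fin_cases i
      · exact o1
      · exact o2
    have o3 : ⟪p0 - q, x - a⟫ = 0 := by
      have := hle (hcop x hx)
      rwa [Submodule.mem_orthogonal_singleton_iff_inner_right] at this
    exact dist_of_orth p0 q a x p0a qa qx o3
  · -- non-coplanar case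
    push Not at hcop
    obtain ⟨d, hd, hdW⟩ := hcop
    have hda : d ≠ a := by
      rintro rfl; exact hdW (by simp)
    have hdb : d ≠ b := by
      rintro rfl; exact hdW (Submodule.subset_span ⟨0, by simp⟩)
    have hdc : d ≠ c := by
      rintro rfl; exact hdW (Submodule.subset_span ⟨1, by simp⟩)
    obtain ⟨p, pa, pb, pc, pd⟩ := H4 a ha b hb c hc d hd hab hac (Ne.symm hda) hbc
      (Ne.symm hdb) (Ne.symm hdc)
    refine ⟨p, fun x hx => ?_⟩
    rw [Metric.mem_sphere]
    by_contra hpx
    have hxa : x ≠ a := by rintro rfl; exact hpx pa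
    have hxb : x ≠ b := by rintro rfl; exact hpx pb
    have hxc : x ≠ c := by rintro rfl; exact hpx pc
    have hxd : x ≠ d := by rintro rfl; exact hpx pd
    obtain ⟨q1, q1b, q1c, q1d, q1x⟩ := H4 b hb c hc d hd x hx hbc (Ne.symm hdb) (Ne.symm hxb)
      (Ne.symm hdc) (Ne.symm hxc) (Ne.symm hxd)
    obtain ⟨q2, q2a, q2c, q2d, q2x⟩ := H4 a ha c hc d hd x hx hac (Ne.symm hda) (Ne.symm hxa)
      (Ne.symm hdc) (Ne.symm hxc) (Ne.symm hxd)
    obtain ⟨q3, q3a, q3b, q3d, q3x⟩ := H4 a ha b hb d hd x hx hab (Ne.symm hda) (Ne.symm hxa)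
      (Ne.symm hdb) (Ne.symm hxb) (Ne.symm hxd)
    obtain ⟨q4, q4a, q4b, q4c, q4x⟩ := H4 a ha b hb c hc x hx hab hac (Ne.symm hxa)
      hbc (Ne.symm hxb) (Ne.symm hxc)
    refine Pool.Agent.T6.H81.Maehara.core5 ![q1, q2, q3, q4, p] ![a, b, c, d, x] ?_ ?_
    · intro i j hij
      fin_cases i <;> fin_cases j <;> first | exact absurd rfl hij | assumption
    · intro i
      fin_cases i
      · intro h
        have h' : dist q1 a = 1 := h
        apply hpx
        rw [unique_of_notMem a b c d p q1 hli hdW pa pb pc pd h' q1b q1c q1d]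
        exact q1x
      · intro h
        have h' : dist q2 b = 1 := h
        apply hpx
        rw [unique_of_notMem a b c d p q2 hli hdW pa pb pc pd q2a h' q2c q2d]
        exact q2x
      · intro h
        have h' : dist q3 c = 1 := h
        apply hpx
        rw [unique_of_notMem a b c d p q3 hli hdW pa pb pc pd q3a q3b h' q3d]
        exact q3x
      · intro h
        have h' : dist q4 d = 1 := h
        apply hpx
        rw [unique_of_notMem a b c d p q4 hli hdW pa pb pc pd q4a q4b q4c h']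
        exact q4x
      · exact hpx

end Pool.Agent.S12391
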