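import Pool.Statements.S16915
import Pool.Agent.T6.H10.Clique

set_option autoImplicit false
open MeasureTheory
open Pool Pool.MP_4fa6ed_nt

namespace Pool.Agent.S16915

open Pool.Agent.T6.H10.Clique

/-- Pigeonhole principle: among sufficiently many of the sets `T_r ⁻¹ A` two meet in positive measure. -/
theorem exists_pair {X : Type} [MeasurableSpace X] (μ : Measure X) [IsProbabilityMeasure μ]
    (S : ℕ → X → X) (hS : ∀ x : ℕ, 0 < x → MeasurePreserving (S x) μ μ) (A : Set X)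
    (hA : MeasurableSet A) (h0 : 0 < μ A) (R : ℕ → ℕ → Prop)
    (hR : ∀ k, ∃ r : List ℕ, r.length = k ∧ (∀ x ∈ r, 0 < x) ∧ r.Pairwise R) :
    ∃ x y : ℕ, 0 < x ∧ 0 < y ∧ R x y ∧ 0 < μ (S x ⁻¹' A ∩ S y ⁻¹' A) := by
  obtain ⟨k, hk⟩ : ∃ k : ℕ, 1 < (k : ENNReal) * μ A := by
    obtain ⟨k, hk⟩ := ENNReal.exists_nat_mul_gt h0.ne' (ENNReal.one_ne_top)
    exact ⟨k, hk⟩
  obtain ⟨r, hlen, hpos, hr⟩ := hR k
  by_contra hcon
  push Not at hcon
  have hp : ∀ i : Fin r.length, 0 < r.get i := fun i => hpos _ (List.get_mem _ _)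
  have hlt : ∀ i j : Fin r.length, i < j → μ (S (r.get i) ⁻¹' A ∩ S (r.get j) ⁻¹' A) = 0 := by
    intro i j hij
    have h1 := List.pairwise_iff_get.1 hr i j hij
    exact le_antisymm (hcon _ _ (hp i) (hp j) h1) bot_le
  have hpair : ((Finset.univ : Finset (Fin r.length)) : Set (Fin r.length)).Pairwise
      (Function.onFun (AEDisjoint μ) fun i => S (r.get i) ⁻¹' A) := by
    intro i _ j _ hij
    rcases lt_or_gt_of_ne hij with h | h
    · exact hlt i j h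
    · exact AEDisjoint.symm (hlt j i h)
  have hun := measure_biUnion_finset₀ hpair
    (fun i _ => ((hS _ (hp i)).measurable hA).nullMeasurableSet)
  have hsum : ∑ i : Fin r.length, μ (S (r.get i) ⁻¹' A) = (k : ENNReal) * μ A := by
    have : ∀ i : Fin r.length, μ (S (r.get i) ⁻¹' A) = μ A := fun i =>
      (hS _ (hp i)).measure_preimage hA.nullMeasurableSet
    simp only [this, Finset.sum_const, Finset.card_univ, Fintype.card_fin, hlen, nsmul_eq_mul]
  rw [hsum] at hun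
  have h2 : (k : ENNReal) * μ A ≤ 1 := by
    rw [← hun]
    exact prob_le_one
  exact absurd hk (not_lt.2 h2)

theorem main (a : ℕ) (b d : ℤ) (ha : 0 < a)
    (hgcd : ∀ k : ℤ, k ∣ (a : ℤ) → k ∣ b → k ∣ d → IsUnit k) (hdvd : (a : ℤ) ∣ b * d) (hbd : d < b)
    (X : Type) [MeasurableSpace X] (μ : Measure X) [IsProbabilityMeasure μ] (T : ℚ → X → X)
    (hmul : ∀ q r : ℚ, 0 < q → 0 < r → T (q * r) = T q ∘ T r)
    (hT : ∀ q : ℚ, 0 < q → MeasurePreserving (T q) μ μ) (A : Set X) (hA : MeasurableSet A)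
    (h0 : 0 < μ A) :
    ∃ n : ℕ, 0 < n ∧ 0 < (a : ℤ) * n + b ∧ 0 < (a : ℤ) * n + d ∧
      0 < μ (A ∩ T (((a : ℚ) * n + b) / ((a : ℚ) * n + d)) ⁻¹' A) := by
  -- `a = a₁ a₂`
  set a₁ : ℕ := Int.gcd a b with ha₁
  set a₂ : ℕ := Int.gcd a d with ha₂
  have haz : (a : ℤ) ≠ 0 := by exact_mod_cast ha.ne'
  have h1pos : 0 < a₁ := Int.gcd_pos_of_ne_zero_left _ haz
  have h2pos : 0 < a₂ := Int.gcd_pos_of_ne_zero_left _ haz
  have h1a : (a₁ : ℤ) ∣ a := Int.gcd_dvd_left _ _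
  have h1b : (a₁ : ℤ) ∣ b := Int.gcd_dvd_right _ _
  have h2a : (a₂ : ℤ) ∣ a := Int.gcd_dvd_left _ _
  have h2d : (a₂ : ℤ) ∣ d := Int.gcd_dvd_right _ _
  have hco : Nat.Coprime a₁ a₂ := by
    have h3 : IsUnit ((a₁.gcd a₂ : ℕ) : ℤ) := by
      refine hgcd _ ?_ ?_ ?_
      · exact dvd_trans (by exact_mod_cast Nat.gcd_dvd_left _ _) h1a
      · exact dvd_trans (by exact_mod_cast Nat.gcd_dvd_left _ _) h1b
      · exact dvd_trans (by exact_mod_cast Nat.gcd_dvd_right _ _) h2d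
    rw [Int.isUnit_iff_natAbs_eq, Int.natAbs_natCast] at h3
    exact h3
  have hmulaa : a₁ * a₂ = a := by
    refine Nat.dvd_antisymm ?_ ?_
    · exact Nat.Coprime.mul_dvd_of_dvd_of_dvd hco (by exact_mod_cast h1a) (by exact_mod_cast h2a)
    · have h3 : a ∣ b.natAbs * d.natAbs := by
        have := Int.natAbs_dvd_natAbs.2 hdvd
        rwa [Int.natAbs_mul, Int.natAbs_natCast] at this
      have h4 : a ∣ a.gcd b.natAbs * a.gcd d.natAbs := Nat.dvd_gcd_mul_gcd_iff_dvd_mul.2 h3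
      exact h4
  obtain ⟨x, y, hx, hy, ⟨g, n, hg, hn, hnd, hxe, hye⟩, hpos⟩ := exists_pair μ (fun x => T x)
    (fun x hx => hT x (by exact_mod_cast hx)) A hA h0 (Rel (a₁ * a₂) b d)
    (fun k => exists_clique a₁ a₂ h1pos h2pos hco b d h1b h2d hbd k)
  rw [hmulaa] at hxe hye hnd
  obtain ⟨m, rfl⟩ : ∃ m : ℕ, n = m := ⟨n.toNat, by omega⟩
  have hnb : 0 < (a : ℤ) * m + b := by linarith
  refine ⟨m, by exact_mod_cast hn, hnb, hnd, ?_⟩
  set q : ℚ := ((a : ℚ) * m + b) / ((a : ℚ) * m + d) with hq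
  have hnb' : (0 : ℚ) < (a : ℚ) * m + b := by exact_mod_cast hnb
  have hnd' : (0 : ℚ) < (a : ℚ) * m + d := by exact_mod_cast hnd
  have hq0 : 0 < q := div_pos hnb' hnd'
  have hy0 : (0 : ℚ) < y := by exact_mod_cast hy
  have hxe' : (x : ℚ) = g * ((a : ℚ) * m + b) := by exact_mod_cast hxe
  have hye' : (y : ℚ) = g * ((a : ℚ) * m + d) := by exact_mod_cast hye
  have hxq : (x : ℚ) = q * y := by
    rw [hxe', hye', hq]
    field_simp
  have hTx : T (x : ℚ) = T q ∘ T (y : ℚ) := by rw [hxq, hmul q y hq0 hy0]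
  have hset : T (x : ℚ) ⁻¹' A ∩ T (y : ℚ) ⁻¹' A = T (y : ℚ) ⁻¹' (A ∩ T q ⁻¹' A) := by
    rw [hTx, Set.preimage_comp, Set.preimage_inter, Set.inter_comm]
  have hmeas : MeasurableSet (A ∩ T q ⁻¹' A) := hA.inter ((hT q hq0).measurable hA)
  have : μ (T (x : ℚ) ⁻¹' A ∩ T (y : ℚ) ⁻¹' A) = μ (A ∩ T q ⁻¹' A) := by
    rw [hset]
    exact (hT y hy0).measure_preimage hmeas.nullMeasurableSet
  rw [← this]
  exact hpos

/-- If a≥1, gcd(a,b,d)=1, and b=d or a divides bd, then for every measure-preserving action of the positive rationals under multiplication and every positive-measure set A, some ratio (an+b)/(an+d) with n≥1 and both terms positive returns A to itself in positive measure. -/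
theorem result :
    ∀ (a : ℕ) (b d : ℤ), 0 < a →
      (∀ k : ℤ, k ∣ (a : ℤ) → k ∣ b → k ∣ d → IsUnit k) →
      (b = d ∨ (a : ℤ) ∣ b * d) →
      ∀ (X : Type) [MeasurableSpace X] (μ : Measure X) [IsProbabilityMeasure μ]
        (T : ℚ → X → X),
        T 1 = id →
        (∀ q r : ℚ, 0 < q → 0 < r → T (q * r) = T q ∘ T r) →
        (∀ q : ℚ, 0 < q → MeasurePreserving (T q) μ μ) →
        ∀ A : Set X, MeasurableSet A → 0 < μ A →
          ∃ n : ℕ, 0 < n ∧ 0 < (a : ℤ) * n + b ∧ 0 < (a : ℤ) * n + d ∧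
            0 < μ (A ∩ T (((a : ℚ) * n + b) / ((a : ℚ) * n + d)) ⁻¹' A) := by
  intro a b d ha hgcd hbd X _ μ _ T h1 hmul hT A hA h0
  rcases lt_trichotomy d b with hlt | heq | hgt
  · refine main a b d ha hgcd ?_ hlt X μ T hmul hT A hA h0
    rcases hbd with h | h
    · omega
    · exact h
  · -- `b = d`
    subst heq
    have ha1 : (1 : ℤ) ≤ a := by exact_mod_cast ha
    have h2 : 0 < (a : ℤ) * ((d.natAbs + 1 : ℕ) : ℤ) + d := by
      have h3 : -(((d.natAbs + 1 : ℕ) : ℤ)) < d := by omega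
      have h4 : ((d.natAbs + 1 : ℕ) : ℤ) ≤ (a : ℤ) * ((d.natAbs + 1 : ℕ) : ℤ) :=
        le_mul_of_one_le_left (by positivity) ha1
      linarith
    refine ⟨d.natAbs + 1, by omega, h2, h2, ?_⟩
    have h5 : (0 : ℚ) < (a : ℚ) * ((d.natAbs + 1 : ℕ) : ℚ) + d := by
      have h6 : ((0 : ℤ) : ℚ) < (((a : ℤ) * ((d.natAbs + 1 : ℕ) : ℤ) + d : ℤ) : ℚ) := Int.cast_lt.2 h2
      simpa using h6
    rw [div_self h5.ne', h1, Set.preimage_id, Set.inter_self]
    exact h0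
  · obtain ⟨n, hn, h2, h3, h4⟩ := main a d b ha (fun k h5 h6 h7 => hgcd k h5 h7 h6) (by
      rcases hbd with h | h
      · omega
      · rwa [mul_comm]) hgt X μ T hmul hT A hA h0
    refine ⟨n, hn, h3, h2, ?_⟩
    set q : ℚ := ((a : ℚ) * n + b) / ((a : ℚ) * n + d) with hq
    set q' : ℚ := ((a : ℚ) * n + d) / ((a : ℚ) * n + b) with hq'
    have hnb' : (0 : ℚ) < (a : ℚ) * n + b := by exact_mod_cast h3
    have hnd' : (0 : ℚ) < (a : ℚ) * n + d := by exact_mod_cast h2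
    have hq0 : 0 < q := div_pos hnb' hnd'
    have hq0' : 0 < q' := div_pos hnd' hnb'
    have hqq : q' * q = 1 := by
      rw [hq, hq']
      field_simp
    have hTT : T q' ∘ T q = id := by rw [← hmul q' q hq0' hq0, hqq, h1]
    have hset : A ∩ T q ⁻¹' A = T q ⁻¹' (A ∩ T q' ⁻¹' A) := by
      rw [Set.preimage_inter, ← Set.preimage_comp, hTT, Set.preimage_id, Set.inter_comm]
    have hmeas : MeasurableSet (A ∩ T q' ⁻¹' A) := hA.inter ((hT q' hq0').measurable hA)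
    rw [hset, (hT q hq0).measure_preimage hmeas.nullMeasurableSet]
    exact h4

end Pool.Agent.S16915
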